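import Pool.Agent.Lib.MP_95b053_co.Spec

/-!
# MP_95b053_co: small doubling gives a long arithmetic progression in `2V - 2V`
-/

set_option autoImplicit false

namespace Pool.Agent.RR95

open Finset
open scoped Pointwise

private theorem ap_six {G : Type*} [AddCommGroup G] [DecidableEq G] (V : Finset G)
    {a1 a2 a3 a4 a5 a6 b1 b2 b3 b4 b5 b6 : G} (h1 : a1 ∈ V) (h2 : a2 ∈ V) (h3 : a3 ∈ V)
    (h4 : a4 ∈ V) (h5 : a5 ∈ V) (h6 : a6 ∈ V) (k1 : b1 ∈ V) (k2 : b2 ∈ V) (k3 : b3 ∈ V)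
    (k4 : b4 ∈ V) (k5 : b5 ∈ V) (k6 : b6 ∈ V) :
    (a1 + a2 + a3 + a4 + a5 + a6) - (b1 + b2 + b3 + b4 + b5 + b6) ∈ 6 • V - 6 • V := by
  have e : 6 • V = V + V + V + V + V + V := by
    rw [succ_nsmul, succ_nsmul, succ_nsmul, succ_nsmul, succ_nsmul, one_nsmul]
  rw [e]
  refine sub_mem_sub ?_ ?_
  · exact add_mem_add (add_mem_add (add_mem_add (add_mem_add (add_mem_add h1 h2) h3) h4) h5) h6
  · exact add_mem_add (add_mem_add (add_mem_add (add_mem_add (add_mem_add k1 k2) k3) k4) k5) k6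

private theorem ap_plu (V : Finset (ℝ × ℝ × ℝ)) (K : ℝ) (hV : V.Nonempty)
    (hK : ((V - V).card : ℝ) ≤ K * V.card) :
    (((6 • V - 6 • V : Finset (ℝ × ℝ × ℝ))).card : ℝ) ≤ K ^ 12 * V.card := by
  have h := Finset.pluennecke_ruzsa_inequality_nsmul_sub_nsmul_sub hV V 6 6
  have h' : (((6 • V - 6 • V : Finset (ℝ × ℝ × ℝ)).card : ℚ≥0) : ℝ) ≤
      (((((V - V).card / V.card : ℚ≥0) ^ (6 + 6) * V.card : ℚ≥0)) : ℝ) := by
    exact_mod_cast h
  push_cast at h'
  refine h'.trans ?_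
  have hV0 : (0 : ℝ) < V.card := by exact_mod_cast hV.card_pos
  have h1 : ((V - V).card : ℝ) / V.card ≤ K := by
    rw [div_le_iff₀ hV0]; exact hK
  gcongr

theorem rAP (h1 : S_Fun) (h2 : S_Circ) (h3 : S_Core0) : S_AP := by
  classical
  intro V K L ρ hV hK hρ hL hLV
  have hn0 : (0 : ℝ) < V.card := by exact_mod_cast hV.card_pos
  have hK1 : 1 ≤ K := by
    have h4 : (V.card : ℝ) ≤ (V - V).card := by exact_mod_cast Finset.card_le_card_sub_self
    have h5 : 1 * (V.card : ℝ) ≤ K * V.card := by linarith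
    exact le_of_mul_le_mul_right h5 hn0
  have hK0 : 0 < K := by linarith
  obtain ⟨S, hS⟩ : ∃ S : Finset (ℝ × ℝ × ℝ), S = 6 • V - 6 • V := ⟨_, rfl⟩
  have hScard : (S.card : ℝ) ≤ K ^ 12 * V.card := hS ▸ ap_plu V K hV hK
  obtain ⟨f, hf⟩ := h1 S
  obtain ⟨v0, hv0⟩ := hV
  have hsub : ∀ x ∈ V, ∀ y ∈ V, x - y ∈ S := by
    intro x hx y hy
    have h4 := ap_six V hx hv0 hv0 hv0 hv0 hv0 hy hv0 hv0 hv0 hv0 hv0
    rw [hS]
    have e : (x + v0 + v0 + v0 + v0 + v0) - (y + v0 + v0 + v0 + v0 + v0) = x - y := by abel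
    rwa [e] at h4
  obtain ⟨η, hη⟩ : ∃ η : ℝ, η = 1 / (4 * K ^ 12 * V.card) := ⟨_, rfl⟩
  have hD0 : 0 < 4 * K ^ 12 * V.card := by positivity
  have hη0 : 0 < η := by rw [hη]; positivity
  have hn1 : (1 : ℝ) ≤ V.card := by
    have : 1 ≤ V.card := Finset.card_pos.mpr ⟨v0, hv0⟩
    exact_mod_cast this
  have hK12 : 1 ≤ K ^ 12 := one_le_pow₀ hK1
  have hη4 : η ≤ 1 / 4 := by
    rw [hη]
    apply one_div_le_one_div_of_le (by norm_num)
    nlinarith
  obtain ⟨S', hS'⟩ : ∃ S' : Finset ℝ, S' = (S.image f).filter (fun y => y ≠ 0) := ⟨_, rfl⟩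
  have hS'card : 4 * η * S'.card ≤ 1 := by
    have h4 : (S'.card : ℝ) ≤ S.card := by
      have : S'.card ≤ S.card := by
        rw [hS']
        exact (card_filter_le _ _).trans card_image_le
      exact_mod_cast this
    have h5 : (S'.card : ℝ) ≤ K ^ 12 * V.card := h4.trans hScard
    calc 4 * η * S'.card ≤ 4 * η * (K ^ 12 * V.card) := by gcongr
      _ = 1 := by rw [hη]; field_simp
  obtain ⟨s, hs⟩ := h2 S' η hη0 hS'card (fun y hy => by
    rw [hS'] at hy
    exact (mem_filter.mp hy).2)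
  -- the separation
  have hsep : ∀ z ∈ S, z ≠ 0 → ∀ k : ℤ, η ≤ |s * f z - k| := by
    intro z hz hz0 k
    apply hs
    rw [hS', mem_filter]
    exact ⟨mem_image_of_mem _ hz, hf z hz hz0⟩
  have hzero : ∀ z ∈ S, s * f z = 0 → z = 0 := by
    intro z hz hsz
    by_contra hz0
    have h4 := hsep z hz hz0 0
    rw [hsz] at h4
    simp at h4
    linarith
  obtain ⟨g, hg⟩ : ∃ g : (ℝ × ℝ × ℝ) →ₗ[ℝ] ℝ, g = s • f := ⟨_, rfl⟩
  have hgv : ∀ z, g z = s * f z := fun z => by rw [hg]; rfl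
  have hginj : Set.InjOn g (V : Set (ℝ × ℝ × ℝ)) := by
    intro x hx y hy hxy
    have h4 : s * f (x - y) = 0 := by
      rw [← hgv, map_sub, hxy, sub_self]
    exact sub_eq_zero.mp (hzero _ (hsub x hx y hy) h4)
  obtain ⟨A, hA⟩ : ∃ A : Finset ℝ, A = V.image g := ⟨_, rfl⟩
  have hAcard : A.card = V.card := by rw [hA]; exact card_image_of_injOn hginj
  have hAS : 6 • A - 6 • A = S.image g := by
    have e : (6 • V - 6 • V).image g = (6 • V).image g - (6 • V).image g :=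
      image_image₂_distrib (map_sub g)
    rw [hS, hA, e, image_nsmul]
  have hρ' : 2 / (1 / (4 * K ^ 12) / 13) ^ 2 ≤ (ρ : ℝ) := by
    refine le_trans (le_of_eq ?_) hρ
    field_simp
    ring
  have hcore := h3 A η (1 / (4 * K ^ 12)) L ρ ?_ hη0 hη4 (by positivity) ?_ ?_ hρ' hL ?_
  · obtain ⟨x, hx0, hx⟩ := hcore
    have hP : ∀ j : ℤ, ∃ v : ℝ × ℝ × ℝ, |j| ≤ L →
        (∃ a ∈ V, ∃ b ∈ V, ∃ c ∈ V, ∃ d ∈ V, v = a + b - c - d) ∧ s * f v = j * x := by
      intro j
      by_cases hj : |j| ≤ L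
      · obtain ⟨a, ha, b, hb, c, hc, d, hd, he⟩ := hx j hj
        rw [hA, mem_image] at ha hb hc hd
        obtain ⟨a', ha', rfl⟩ := ha
        obtain ⟨b', hb', rfl⟩ := hb
        obtain ⟨c', hc', rfl⟩ := hc
        obtain ⟨d', hd', rfl⟩ := hd
        refine ⟨a' + b' - c' - d', fun _ => ⟨⟨a', ha', b', hb', c', hc', d', hd', rfl⟩, ?_⟩⟩
        rw [← hgv, map_sub, map_sub, map_add, he]
      · exact ⟨0, fun h => absurd h hj⟩
    choose v hv using hP
    have hadd : ∀ i j : ℤ, |i| ≤ L → |j| ≤ L → |i + j| ≤ L → v (i + j) = v i + v j := by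
      intro i j hi hj hij
      obtain ⟨⟨a1, ha1, b1, hb1, c1, hc1, d1, hd1, e1⟩, e1'⟩ := hv i hi
      obtain ⟨⟨a2, ha2, b2, hb2, c2, hc2, d2, hd2, e2⟩, e2'⟩ := hv j hj
      obtain ⟨⟨a3, ha3, b3, hb3, c3, hc3, d3, hd3, e3⟩, e3'⟩ := hv (i + j) hij
      have h4 := ap_six V ha3 hb3 hc1 hd1 hc2 hd2 hc3 hd3 ha1 hb1 ha2 hb2
      have h5 : (a3 + b3 + c1 + d1 + c2 + d2) - (c3 + d3 + a1 + b1 + a2 + b2) =
          v (i + j) - v i - v j := by
        rw [e1, e2, e3]; abel
      rw [h5, ← hS] at h4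
      have h6 : s * f (v (i + j) - v i - v j) = 0 := by
        rw [map_sub, map_sub, mul_sub, mul_sub, e1', e2', e3']
        push_cast
        ring
      have h7 := hzero _ h4 h6
      rw [sub_sub, sub_eq_zero] at h7
      exact h7
    have hv00 : v 0 = 0 := by
      have h4 := hadd 0 0 (by simp) (by simp) (by simp)
      rw [add_zero] at h4
      exact left_eq_add.mp h4
    have h1L : |(1 : ℤ)| ≤ L := by
      rw [abs_one]; exact_mod_cast hL
    have hnat : ∀ m : ℕ, m ≤ L → v m = (m : ℝ) • v 1 := by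
      intro m
      induction m with
      | zero => intro _; rw [Nat.cast_zero, hv00, Nat.cast_zero, zero_smul]
      | succ m ih =>
        intro hm
        have h4 := hadd m 1 (by
          rw [abs_of_nonneg (by positivity)]
          exact_mod_cast (by omega : m ≤ L)) h1L (by
          rw [abs_of_nonneg (by positivity)]
          exact_mod_cast hm)
        rw [Nat.cast_succ, h4, ih (by omega), Nat.cast_succ, add_smul, one_smul]
    have hint : ∀ j : ℤ, |j| ≤ L → v j = (j : ℝ) • v 1 := by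
      intro j hj
      obtain ⟨m, rfl | rfl⟩ := Int.eq_nat_or_neg j
      · have hm : m ≤ L := by
          rw [abs_of_nonneg (by positivity)] at hj
          exact_mod_cast hj
        rw [hnat m hm, Int.cast_natCast]
      · have hm : m ≤ L := by
          rw [abs_neg, abs_of_nonneg (by positivity)] at hj
          exact_mod_cast hj
        have h4 := hadd (-(m : ℤ)) m hj (by
          rw [abs_of_nonneg (by positivity)]
          exact_mod_cast hm) (by
          rw [neg_add_cancel]; simp)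
        rw [neg_add_cancel, hv00] at h4
        have h5 : v (-(m : ℤ)) = - v m := eq_neg_of_add_eq_zero_left h4.symm
        rw [h5, hnat m hm]
        push_cast
        rw [neg_smul]
    refine ⟨v 1, ?_, ?_⟩
    · intro h
      have h4 := (hv 1 h1L).2
      rw [h, map_zero, mul_zero, Int.cast_one, one_mul] at h4
      exact hx0 h4.symm
    · intro j hj
      rw [← hint j hj]
      exact (hv j hj).1
  · rw [hA]; exact ⟨g v0, mem_image_of_mem _ hv0⟩
  · rw [hAcard, hη]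
    apply le_of_eq
    field_simp
  · rw [hAS]
    intro y hy hy0 k
    rw [mem_image] at hy
    obtain ⟨z, hz, rfl⟩ := hy
    rw [hgv]
    apply hsep z hz
    rintro rfl
    exact hy0 (map_zero g)
  · have h4 : ((4 * L : ℕ) : ℝ) ^ ρ ≤ V.card := by exact_mod_cast hLV
    calc ((4 * L : ℕ) : ℝ) ^ ρ * η ≤ V.card * η := by gcongr
      _ = 1 / (4 * K ^ 12) := by rw [hη]; field_simp
      _ ≤ 1 := by
        rw [div_le_one (by positivity)]
        linarith

end Pool.Agent.RR95
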