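import Pool.Agent.Lib.MP_95b053_co.Spec

/-!
# MP_95b053_co: points whose lifts are on a line are on a line
-/

set_option autoImplicit false

namespace Pool.Agent.RR95

open Finset

private theorem back_rank (x y : ℝ × ℝ) (h : x ≠ y) :
    Module.finrank ℝ (line[ℝ, x, y]).direction = 1 := by
  rw [direction_affineSpan, vectorSpan_pair]
  exact finrank_span_singleton (sub_ne_zero.mpr h)

private theorem back_card (P : Finset (ℝ × ℝ)) (a b d : ℝ) (T : Finset (ℝ × ℝ × ℝ))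
    (L : AffineSubspace ℝ (ℝ × ℝ)) (h : ∀ q ∈ T, ∃ y ∈ P, y ∈ L ∧ lift a b d y = q) :
    T.card ≤ ((P : Set (ℝ × ℝ)) ∩ (L : Set (ℝ × ℝ))).ncard := by
  classical
  have h1 : T ⊆ (P.filter (fun y => y ∈ L)).image (lift a b d) := by
    intro q hq
    obtain ⟨y, hy, hyL, hyq⟩ := h q hq
    rw [mem_image]
    exact ⟨y, mem_filter.mpr ⟨hy, hyL⟩, hyq⟩
  refine (card_le_card h1).trans (card_image_le.trans (le_of_eq ?_))
  rw [← Set.ncard_coe_finset]
  congr 1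
  ext y
  simp

theorem rBack : S_Back := by
  classical
  intro P a b d p v T hP hT hline
  have hlift : ∀ q ∈ T, ∃ y ∈ P, lift a b d y = q := fun q hq => mem_image.mp (hT hq)
  by_cases h2 : ∃ q₁ ∈ T, ∃ q₂ ∈ T, q₁ ≠ q₂
  · obtain ⟨q₁, hq₁, q₂, hq₂, hne⟩ := h2
    obtain ⟨y₁, hy₁, e₁⟩ := hlift q₁ hq₁
    obtain ⟨y₂, hy₂, e₂⟩ := hlift q₂ hq₂
    have hyne : y₁ ≠ y₂ := by
      rintro rfl
      exact hne (e₁.symm.trans e₂)
    refine ⟨line[ℝ, y₁, y₂], back_rank y₁ y₂ hyne, back_card P a b d T _ ?_⟩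
    intro q hq
    obtain ⟨y, hy, e⟩ := hlift q hq
    refine ⟨y, hy, ?_, e⟩
    obtain ⟨s, hs⟩ := hline q hq
    obtain ⟨s₁, hs₁⟩ := hline q₁ hq₁
    obtain ⟨s₂, hs₂⟩ := hline q₂ hq₂
    have hs12 : s₂ - s₁ ≠ 0 := by
      intro h
      apply hne
      rw [hs₁, hs₂, sub_eq_zero.mp h]
    obtain ⟨u, hu⟩ : ∃ u : ℝ, u = (s - s₁) / (s₂ - s₁) := ⟨_, rfl⟩
    have hqu : q = q₁ + u • (q₂ - q₁) := by
      have h3 : q₂ - q₁ = (s₂ - s₁) • v := by rw [hs₁, hs₂, sub_smul]; abel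
      have h4 : u * (s₂ - s₁) = s - s₁ := by rw [hu]; field_simp
      rw [h3, smul_smul, h4, hs, hs₁, sub_smul]
      abel
    rw [← e, ← e₁, ← e₂] at hqu
    have hφ := hP y hy
    have hφ₁ := hP y₁ hy₁
    have hφ₂ := hP y₂ hy₂
    unfold lift at hqu
    have k1 := congrArg (fun z : ℝ × ℝ × ℝ => z.1) hqu
    have k2 := congrArg (fun z : ℝ × ℝ × ℝ => z.2.1) hqu
    have k3 := congrArg (fun z : ℝ × ℝ × ℝ => z.2.2) hqu
    simp only [Prod.fst_add, Prod.snd_add, Prod.smul_fst, Prod.smul_snd, Prod.fst_sub,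
      Prod.snd_sub, smul_eq_mul] at k1 k2 k3
    generalize aff a b d y = F at *
    generalize aff a b d y₁ = F₁ at *
    generalize aff a b d y₂ = F₂ at *
    have m1 : y.1 = y₁.1 + (F * u * F₂⁻¹) * (y₂.1 - y₁.1) := by
      have h5 : y.1 = F * (F⁻¹ * y.1) := by field_simp
      have h6 : F * (F₁⁻¹ + u * (F₂⁻¹ - F₁⁻¹)) = 1 := by rw [← k3]; exact mul_inv_cancel₀ hφ
      rw [h5, k1]
      linear_combination y₁.1 * h6
    have m2 : y.2 = y₁.2 + (F * u * F₂⁻¹) * (y₂.2 - y₁.2) := by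
      have h5 : y.2 = F * (F⁻¹ * y.2) := by field_simp
      have h6 : F * (F₁⁻¹ + u * (F₂⁻¹ - F₁⁻¹)) = 1 := by rw [← k3]; exact mul_inv_cancel₀ hφ
      rw [h5, k2]
      linear_combination y₁.2 * h6
    have m3 : y = AffineMap.lineMap y₁ y₂ (F * u * F₂⁻¹) := by
      rw [AffineMap.lineMap_apply]
      ext
      · rw [m1]
        simp [add_comm]
      · rw [m2]
        simp [add_comm]
    rw [m3]
    exact AffineMap.lineMap_mem_affineSpan_pair _ _ _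
  · push Not at h2
    have hx : ∀ x : ℝ × ℝ, x ≠ x + (1, 0) := by
      intro x h
      have := congrArg Prod.fst h
      simp at this
    rcases T.eq_empty_or_nonempty with h0 | ⟨q₀, hq₀⟩
    · exact ⟨line[ℝ, (0 : ℝ × ℝ), 0 + (1, 0)], back_rank _ _ (hx 0), by rw [h0]; simp⟩
    · obtain ⟨y₀, hy₀, e₀⟩ := hlift q₀ hq₀
      refine ⟨line[ℝ, y₀, y₀ + (1, 0)], back_rank _ _ (hx y₀), back_card P a b d T _ ?_⟩
      intro q hq
      rw [h2 q hq q₀ hq₀]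
      exact ⟨y₀, hy₀, left_mem_affineSpan_pair ℝ _ _, e₀⟩

end Pool.Agent.RR95
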