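import Pool.Agent.Lib.MP_95b053_co.Spec

/-!
# MP_95b053_co: Bogolyubov's lemma in `ℤ/N`
-/

namespace Pool.Agent.RR95

open Finset

/-- the exponential sum -/
private noncomputable def Bog_T {N : ℕ} [NeZero N] {ι : Type*} (s : Finset ι) (f : ι → ZMod N)
    (r : ZMod N) : ℂ := ∑ i ∈ s, ZMod.stdAddChar (r * f i)

private theorem Bog_neg {N : ℕ} [NeZero N] (x : ZMod N) :
    (ZMod.stdAddChar (-x) : ℂ) = (starRingEnd ℂ) (ZMod.stdAddChar x) :=
  AddChar.map_neg_eq_conj _ _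

private theorem Bog_sq {N : ℕ} [NeZero N] {ι : Type*} (s : Finset ι) (f : ι → ZMod N)
    (r : ZMod N) : ((‖Bog_T s f r‖ ^ 2 : ℝ) : ℂ) =
      ∑ i ∈ s, ∑ j ∈ s, (ZMod.stdAddChar (r * (f i - f j)) : ℂ) := by
  have h : ((‖Bog_T s f r‖ ^ 2 : ℝ) : ℂ) = Bog_T s f r * (starRingEnd ℂ) (Bog_T s f r) := by
    rw [Complex.mul_conj, Complex.normSq_eq_norm_sq]
  rw [h]
  unfold Bog_T
  rw [map_sum, Finset.sum_mul_sum]
  refine Finset.sum_congr rfl fun i _ => Finset.sum_congr rfl fun j _ => ?_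
  rw [← Bog_neg, ← AddChar.map_add_eq_mul]
  congr 1
  ring

private theorem Bog_main {N : ℕ} [NeZero N] {ι : Type*} (s : Finset ι) (f : ι → ZMod N)
    (t : ZMod N) : ∑ r : ZMod N, ((‖Bog_T s f r‖ ^ 2 : ℝ) : ℂ) * ZMod.stdAddChar (-(r * t)) =
      ∑ i ∈ s, ∑ j ∈ s, if f i - f j - t = 0 then (N : ℂ) else 0 := by
  have h1 : ∀ r : ZMod N, ((‖Bog_T s f r‖ ^ 2 : ℝ) : ℂ) * ZMod.stdAddChar (-(r * t)) =
      ∑ i ∈ s, ∑ j ∈ s, (ZMod.stdAddChar (r * (f i - f j - t)) : ℂ) := by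
    intro r
    rw [Bog_sq, Finset.sum_mul]
    refine Finset.sum_congr rfl fun i _ => ?_
    rw [Finset.sum_mul]
    refine Finset.sum_congr rfl fun j _ => ?_
    rw [← AddChar.map_add_eq_mul]
    congr 1
    ring
  rw [Finset.sum_congr rfl fun r _ => h1 r, Finset.sum_comm]
  refine Finset.sum_congr rfl fun i _ => ?_
  rw [Finset.sum_comm]
  refine Finset.sum_congr rfl fun j _ => ?_
  rw [AddChar.sum_mulShift _ (ZMod.isPrimitive_stdAddChar N), ZMod.card]
  split_ifs <;> simp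

private theorem Bog_pars {N : ℕ} [NeZero N] (E : Finset (ZMod N)) :
    ∑ r : ZMod N, ‖Bog_T E id r‖ ^ 2 = N * E.card := by
  have h := Bog_main E id 0
  have h1 : ∀ r : ZMod N, ((‖Bog_T E id r‖ ^ 2 : ℝ) : ℂ) * ZMod.stdAddChar (-(r * 0)) =
      ((‖Bog_T E id r‖ ^ 2 : ℝ) : ℂ) := by
    intro r
    rw [mul_zero, neg_zero, AddChar.map_zero_eq_one, mul_one]
  rw [Finset.sum_congr rfl fun r _ => h1 r] at h
  have h2 : ∑ i ∈ E, ∑ j ∈ E, (if (id i : ZMod N) - id j - 0 = 0 then (N : ℂ) else 0) =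
      N * E.card := by
    have h3 : ∀ i ∈ E, ∑ j ∈ E, (if (id i : ZMod N) - id j - 0 = 0 then (N : ℂ) else 0) = N := by
      intro i hi
      rw [Finset.sum_eq_single i]
      · rw [if_pos (by simp)]
      · intro j _ hj
        rw [if_neg]
        intro h
        apply hj
        rw [sub_zero, sub_eq_zero] at h
        exact h.symm
      · intro h
        exact absurd hi h
    rw [Finset.sum_congr rfl h3, Finset.sum_const, nsmul_eq_mul, mul_comm]
  rw [h2] at h
  exact_mod_cast h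

private theorem Bog_pair {N : ℕ} [NeZero N] (E : Finset (ZMod N)) (r : ZMod N) :
    Bog_T (E ×ˢ E) (fun p => p.1 + p.2) r = Bog_T E id r ^ 2 := by
  unfold Bog_T
  rw [sq, Finset.sum_mul_sum, Finset.sum_product]
  refine Finset.sum_congr rfl fun i _ => Finset.sum_congr rfl fun j _ => ?_
  rw [← AddChar.map_add_eq_mul]
  congr 1
  simp only [id]
  ring

theorem rBog : S_Bog := by
  classical
  intro N _ E α hα hE
  have hN : (0 : ℝ) < N := by exact_mod_cast Nat.pos_of_ne_zero (NeZero.ne N)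
  set e : ℝ := (E.card : ℝ) with he
  have he0 : 0 < e := lt_of_lt_of_le (by positivity) hE
  set R : Finset (ZMod N) := univ.filter (fun r => e ^ 3 ≤ 2 * N * ‖Bog_T E id r‖ ^ 2) with hR
  have hpars := Bog_pars E
  rw [← he] at hpars
  refine ⟨R, ?_, ?_⟩
  · have h1 : (R.card : ℝ) * e ^ 3 ≤ 2 * N * (N * e) := by
      rw [← hpars, Finset.mul_sum]
      calc (R.card : ℝ) * e ^ 3 = ∑ r ∈ R, e ^ 3 := by rw [sum_const, nsmul_eq_mul]
        _ ≤ ∑ r ∈ R, 2 * (N : ℝ) * ‖Bog_T E id r‖ ^ 2 :=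
            Finset.sum_le_sum fun r hr => (mem_filter.1 hr).2
        _ ≤ ∑ r : ZMod N, 2 * (N : ℝ) * ‖Bog_T E id r‖ ^ 2 :=
            Finset.sum_le_sum_of_subset_of_nonneg (filter_subset _ _) fun r _ _ => by positivity
    have h2 : (R.card : ℝ) * e ^ 2 ≤ 2 * (N : ℝ) ^ 2 := by
      have : ((R.card : ℝ) * e ^ 2) * e ≤ (2 * (N : ℝ) ^ 2) * e := by nlinarith
      exact le_of_mul_le_mul_right this he0
    have h3 : (α * N) ^ 2 ≤ e ^ 2 := pow_le_pow_left₀ (by positivity) hE 2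
    have h4 : (R.card : ℝ) * (α * N) ^ 2 ≤ 2 * (N : ℝ) ^ 2 :=
      (mul_le_mul_of_nonneg_left h3 (Nat.cast_nonneg _)).trans h2
    rw [le_div_iff₀ (by positivity)]
    have h5 : ((R.card : ℝ) * α ^ 2) * (N : ℝ) ^ 2 ≤ 2 * (N : ℝ) ^ 2 := by nlinarith
    exact le_of_mul_le_mul_right h5 (by positivity)
  · intro t ht
    by_contra hcon
    push Not at hcon
    have h := Bog_main (E ×ˢ E) (fun p => p.1 + p.2) t
    have h0 : ∑ i ∈ E ×ˢ E, ∑ j ∈ E ×ˢ E,
        (if (i.1 + i.2) - (j.1 + j.2) - t = 0 then (N : ℂ) else 0) = 0 := by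
      refine Finset.sum_eq_zero fun i hi => Finset.sum_eq_zero fun j hj => ?_
      rw [if_neg]
      intro h
      rw [mem_product] at hi hj
      apply hcon i.1 hi.1 i.2 hi.2 j.1 hj.1 j.2 hj.2
      rw [sub_eq_zero] at h
      rw [← h]
      ring
    rw [h0] at h
    have h1 := congrArg Complex.re h
    rw [Complex.re_sum, Complex.zero_re] at h1
    have h2 : ∀ r : ZMod N, (if r = 0 then e ^ 4 else 0) - e ^ 3 / (2 * N) * ‖Bog_T E id r‖ ^ 2 ≤
        (((‖Bog_T (E ×ˢ E) (fun p => p.1 + p.2) r‖ ^ 2 : ℝ) : ℂ) * ZMod.stdAddChar (-(r * t))).re := by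
      intro r
      rw [Complex.re_ofReal_mul, Bog_pair, norm_pow, Bog_neg, Complex.conj_re]
      by_cases hr0 : r = 0
      · subst hr0
        rw [if_pos rfl, zero_mul, AddChar.map_zero_eq_one, Complex.one_re, mul_one]
        have h3 : ‖Bog_T E id (0 : ZMod N)‖ = e := by
          unfold Bog_T
          simp only [zero_mul, AddChar.map_zero_eq_one, sum_const, nsmul_eq_mul, mul_one]
          rw [Complex.norm_natCast]
        rw [h3]
        have : 0 ≤ e ^ 3 / (2 * N) * e ^ 2 := by positivity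
        nlinarith
      · rw [if_neg hr0, zero_sub]
        by_cases hr : r ∈ R
        · have h3 := ht r hr
          have h4 : 0 ≤ (‖Bog_T E id r‖ ^ 2) ^ 2 * (ZMod.stdAddChar (r * t) : ℂ).re :=
            mul_nonneg (by positivity) h3
          have h5 : 0 ≤ e ^ 3 / (2 * N) * ‖Bog_T E id r‖ ^ 2 := by positivity
          linarith
        · have h3 : 2 * N * ‖Bog_T E id r‖ ^ 2 < e ^ 3 := by
            by_contra h
            push Not at h
            exact hr (mem_filter.2 ⟨mem_univ _, h⟩)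
          have h4 : -1 ≤ (ZMod.stdAddChar (r * t) : ℂ).re := by
            have h5 : ‖(ZMod.stdAddChar (r * t) : ℂ)‖ = 1 := AddChar.norm_apply _ _
            have h6 := Complex.abs_re_le_norm (ZMod.stdAddChar (r * t) : ℂ)
            rw [h5] at h6
            exact (abs_le.1 h6).1
          have h5 : -(‖Bog_T E id r‖ ^ 2) ^ 2 ≤
              (‖Bog_T E id r‖ ^ 2) ^ 2 * (ZMod.stdAddChar (r * t) : ℂ).re := by
            have : 0 ≤ (‖Bog_T E id r‖ ^ 2) ^ 2 := by positivity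
            nlinarith
          have h6 : (‖Bog_T E id r‖ ^ 2) ^ 2 ≤ e ^ 3 / (2 * N) * ‖Bog_T E id r‖ ^ 2 := by
            rw [sq (‖Bog_T E id r‖ ^ 2)]
            apply mul_le_mul_of_nonneg_right _ (by positivity)
            rw [le_div_iff₀ (by positivity)]
            linarith
          linarith
    have h3 := Finset.sum_le_sum fun r (_ : r ∈ (univ : Finset (ZMod N))) => h2 r
    rw [h1, Finset.sum_sub_distrib, Finset.sum_ite_eq' univ (0 : ZMod N), if_pos (mem_univ _),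
      ← Finset.mul_sum, hpars] at h3
    have h4 : e ^ 3 / (2 * N) * (N * e) = e ^ 4 / 2 := by
      field_simp
    rw [h4] at h3
    have : 0 < e ^ 4 := by positivity
    linarith

end Pool.Agent.RR95
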