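import Pool.Agent.Lib.MP_95b053_co.Spec

/-!
# MP_95b053_co: a long progression in `2E - 2E` for a dense set `E` of `ℤ/N` (`BohrAP`)
-/

namespace Pool.Agent.RR95

theorem rBohrAP (h1 : S_Bog) (h2 : S_Dir) (h3 : S_Pos) : S_BohrAP := by
  intro N _ E α g M L ρ hα hE hρ hL hM
  obtain ⟨R, hR, hB⟩ := h1 N E α hα hE
  have hRρ : R.card ≤ ρ := by exact_mod_cast hR.trans hρ
  have h4 : (4 * L) ^ R.card < M := lt_of_le_of_lt (Nat.pow_le_pow_right (by omega) hRρ) hM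
  obtain ⟨i, hi0, hiM, hi⟩ := h2 N g M (4 * L) R (by omega) h4
  refine ⟨i, hi0, hiM, ?_⟩
  intro j hj
  apply hB
  intro r hr
  obtain ⟨m, hm⟩ := hi r hr
  apply h3 N r (j * (i * g : ℕ)) (j * m)
  have hL' : (0 : ℝ) < L := by exact_mod_cast (show 0 < L by omega)
  have hj' : |(j : ℝ)| ≤ L := by exact_mod_cast hj
  have e1 : (r.val : ℝ) * ((j * (i * g : ℕ) : ℤ) : ℝ) / N - ((j * m : ℤ) : ℝ) =
      (j : ℝ) * ((r.val : ℝ) * ((i * g : ℕ) : ℝ) / N - m) := by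
    push_cast
    ring
  rw [e1, abs_mul]
  calc |(j : ℝ)| * |(r.val : ℝ) * ((i * g : ℕ) : ℝ) / N - m| ≤ L * (1 / ((4 * L : ℕ) : ℝ)) :=
        mul_le_mul hj' hm (abs_nonneg _) hL'.le
    _ = 1 / 4 := by
        push_cast
        field_simp

end Pool.Agent.RR95
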