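import Pool.Agent.Lib.MP_95b053_co.Spec

/-!
# MP_95b053_co: a dilation which moves finitely many nonzero numbers away from the integers
-/

set_option autoImplicit false

namespace Pool.Agent.RR95

open Finset MeasureTheory

theorem rCirc : S_Circ := by
  intro S η hη hcard hS
  rcases S.eq_empty_or_nonempty with h0 | hne
  · exact ⟨0, by rw [h0]; simp⟩
  have hη4 : η ≤ 1 / 4 := by
    have h1 : (1 : ℝ) ≤ S.card := by exact_mod_cast hne.card_pos
    nlinarith
  obtain ⟨y₀, hy₀, hmin⟩ := S.exists_min_image (fun y => |y|) hne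
  obtain ⟨m, hm⟩ : ∃ m : ℝ, m = |y₀| := ⟨_, rfl⟩
  have hm0 : 0 < m := hm ▸ abs_pos.mpr (hS y₀ hy₀)
  have hmy : ∀ y ∈ S, m ≤ |y| := fun y hy => hm ▸ hmin y hy
  obtain ⟨T, hT⟩ : ∃ T : ℝ, T = 4 / m := ⟨_, rfl⟩
  have hT0 : 0 < T := by rw [hT]; positivity
  by_contra hcon
  push Not at hcon
  have hcover : Set.Icc 0 T ⊆ ⋃ y ∈ S, ⋃ k ∈ Finset.range (⌊T * |y|⌋₊ + 2),
      Set.Ioo (((k : ℝ) - η) / |y|) (((k : ℝ) + η) / |y|) := by
    rintro s ⟨hs0, hsT⟩
    obtain ⟨y, hy, k, hk⟩ := hcon s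
    have hy0 : 0 < |y| := abs_pos.mpr (hS y hy)
    obtain ⟨k', hk'⟩ : ∃ k' : ℤ, |s * |y| - k'| < η := by
      rcases le_total 0 y with h | h
      · exact ⟨k, by rw [abs_of_nonneg h]; exact hk⟩
      · refine ⟨-k, ?_⟩
        rw [abs_of_nonpos h]
        push_cast
        rw [show s * -y - -(k : ℝ) = -(s * y - k) by ring, abs_neg]
        exact hk
    rw [abs_lt] at hk'
    have hsy : 0 ≤ s * |y| := mul_nonneg hs0 hy0.le
    have hk0 : 0 ≤ k' := by
      by_contra h
      have h1 : k' ≤ -1 := by omega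
      have h2 : (k' : ℝ) ≤ -1 := by exact_mod_cast h1
      linarith
    obtain ⟨j, rfl⟩ := Int.eq_ofNat_of_zero_le hk0
    rw [Int.cast_natCast] at hk'
    have hj : j < ⌊T * |y|⌋₊ + 2 := by
      have h1 : s * |y| ≤ T * |y| := mul_le_mul_of_nonneg_right hsT hy0.le
      have h2 := Nat.lt_floor_add_one (T * |y|)
      have h3 : (j : ℝ) < (⌊T * |y|⌋₊ + 2 : ℕ) := by
        push_cast
        linarith
      exact_mod_cast h3
    simp only [Set.mem_iUnion]
    refine ⟨y, hy, j, Finset.mem_range.mpr hj, ?_, ?_⟩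
    · rw [div_lt_iff₀ hy0]; linarith
    · rw [lt_div_iff₀ hy0]; linarith
  have hvol : ENNReal.ofReal T ≤ ENNReal.ofReal (∑ y ∈ S, ((⌊T * |y|⌋₊ : ℝ) + 2) * (2 * η / |y|)) := by
    calc ENNReal.ofReal T = volume (Set.Icc 0 T) := by rw [Real.volume_Icc, sub_zero]
      _ ≤ volume (⋃ y ∈ S, ⋃ k ∈ Finset.range (⌊T * |y|⌋₊ + 2),
          Set.Ioo (((k : ℝ) - η) / |y|) (((k : ℝ) + η) / |y|)) := measure_mono hcover
      _ ≤ ∑ y ∈ S, volume (⋃ k ∈ Finset.range (⌊T * |y|⌋₊ + 2),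
          Set.Ioo (((k : ℝ) - η) / |y|) (((k : ℝ) + η) / |y|)) := measure_biUnion_finset_le _ _
      _ ≤ ∑ y ∈ S, ENNReal.ofReal (((⌊T * |y|⌋₊ : ℝ) + 2) * (2 * η / |y|)) := by
          refine Finset.sum_le_sum fun y hy => ?_
          refine (measure_biUnion_finset_le _ _).trans (le_of_eq ?_)
          have hy0 : 0 < |y| := abs_pos.mpr (hS y hy)
          have e : ∀ k ∈ Finset.range (⌊T * |y|⌋₊ + 2),
              volume (Set.Ioo (((k : ℝ) - η) / |y|) (((k : ℝ) + η) / |y|)) =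
                ENNReal.ofReal (2 * η / |y|) := by
            intro k _
            rw [Real.volume_Ioo]
            congr 1
            ring
          rw [Finset.sum_congr rfl e, Finset.sum_const, Finset.card_range, nsmul_eq_mul,
            ENNReal.ofReal_mul (by positivity)]
          congr 1
          rw [← ENNReal.ofReal_natCast]
          push_cast
          rfl
      _ = ENNReal.ofReal (∑ y ∈ S, ((⌊T * |y|⌋₊ : ℝ) + 2) * (2 * η / |y|)) := by
          rw [ENNReal.ofReal_sum_of_nonneg]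
          intro y hy
          have hy0 : 0 < |y| := abs_pos.mpr (hS y hy)
          positivity
  have hsum : ∑ y ∈ S, ((⌊T * |y|⌋₊ : ℝ) + 2) * (2 * η / |y|) ≤ 3 / 4 * T := by
    calc ∑ y ∈ S, ((⌊T * |y|⌋₊ : ℝ) + 2) * (2 * η / |y|)
        ≤ ∑ _y ∈ S, (2 * η * T + 4 * η / m) := by
          refine Finset.sum_le_sum fun y hy => ?_
          have hy0 : 0 < |y| := abs_pos.mpr (hS y hy)
          have h1 : (⌊T * |y|⌋₊ : ℝ) ≤ T * |y| := Nat.floor_le (by positivity)
          calc ((⌊T * |y|⌋₊ : ℝ) + 2) * (2 * η / |y|) ≤ (T * |y| + 2) * (2 * η / |y|) := by gcongr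
            _ = 2 * η * T + 4 * η / |y| := by field_simp; ring
            _ ≤ 2 * η * T + 4 * η / m := by
              have := hmy y hy
              gcongr
      _ = (4 * η * S.card) * (T / 2 + 1 / m) := by
          rw [Finset.sum_const, nsmul_eq_mul]
          ring
      _ ≤ 1 * (T / 2 + 1 / m) := by
          apply mul_le_mul_of_nonneg_right hcard
          positivity
      _ = 3 / 4 * T := by rw [hT]; field_simp; ring
  have h1 : ENNReal.ofReal T ≤ ENNReal.ofReal (3 / 4 * T) :=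
    hvol.trans (ENNReal.ofReal_le_ofReal hsum)
  rw [ENNReal.ofReal_le_ofReal_iff (by positivity)] at h1
  linarith

end Pool.Agent.RR95
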