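import Pool.Agent.Lib.MP_95b053_co.Spec

/-!
# MP_95b053_co: the progression for a set which is separated modulo `1`
-/

set_option autoImplicit false

namespace Pool.Agent.RR95

open Finset
open scoped Pointwise

private theorem core0_six (A : Finset ℝ) : (6 • A - 6 • A) =
    (A + A + A + A + A + A) - (A + A + A + A + A + A) := by
  simp only [show (6 : ℕ) = 1 + 1 + 1 + 1 + 1 + 1 from rfl, add_nsmul, one_nsmul]

private theorem core0_mem (A : Finset ℝ) {a₁ a₂ a₃ a₄ a₅ a₆ b₁ b₂ b₃ b₄ b₅ b₆ : ℝ}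
    (ha₁ : a₁ ∈ A) (ha₂ : a₂ ∈ A) (ha₃ : a₃ ∈ A) (ha₄ : a₄ ∈ A) (ha₅ : a₅ ∈ A) (ha₆ : a₆ ∈ A)
    (hb₁ : b₁ ∈ A) (hb₂ : b₂ ∈ A) (hb₃ : b₃ ∈ A) (hb₄ : b₄ ∈ A) (hb₅ : b₅ ∈ A) (hb₆ : b₆ ∈ A) :
    (a₁ + a₂ + a₃ + a₄ + a₅ + a₆) - (b₁ + b₂ + b₃ + b₄ + b₅ + b₆) ∈ 6 • A - 6 • A := by
  rw [core0_six]
  exact Finset.sub_mem_sub
    (Finset.add_mem_add (Finset.add_mem_add (Finset.add_mem_add (Finset.add_mem_add
      (Finset.add_mem_add ha₁ ha₂) ha₃) ha₄) ha₅) ha₆)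
    (Finset.add_mem_add (Finset.add_mem_add (Finset.add_mem_add (Finset.add_mem_add
      (Finset.add_mem_add hb₁ hb₂) hb₃) hb₄) hb₅) hb₆)

theorem rCore0 (h1 : S_BohrAP) (h2 : S_Thick) : S_Core0 := by
  intro A η β L ρ hA hη hη4 hβ hβA hsep hρ hL hLρ
  obtain ⟨a0, ha0⟩ := hA
  obtain ⟨N, hN⟩ := exists_nat_ge (1000 / η)
  have h1000 : 1000 ≤ η * N := by
    rw [div_le_iff₀ hη] at hN
    linarith
  have hNpos : (0 : ℝ) < N := by
    by_contra h
    rw [not_lt] at h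
    nlinarith
  have hN0 : N ≠ 0 := by
    intro h
    rw [h] at hNpos
    simp at hNpos
  have : NeZero N := ⟨hN0⟩
  have hsep' : ∀ x ∈ A, ∀ x' ∈ A, x ≠ x' → ∀ k : ℤ, η ≤ |x - x' - k| := by
    intro x hx x' hx' hne k
    have hm := core0_mem A hx ha0 ha0 ha0 ha0 ha0 hx' ha0 ha0 ha0 ha0 ha0
    have e : (x + a0 + a0 + a0 + a0 + a0) - (x' + a0 + a0 + a0 + a0 + a0) = x - x' := by ring
    rw [e] at hm
    exact hsep _ hm (sub_ne_zero.mpr hne) k
  obtain ⟨E, hE1, hE2⟩ := h2 A η N hη hη4 h1000 hsep'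
  set g : ℕ := ⌈η * N / 2⌉₊ with hg
  have hg1 : η * N / 2 ≤ g := Nat.le_ceil _
  have hg2 : (g : ℝ) < η * N / 2 + 1 := Nat.ceil_lt_add_one (by positivity)
  have hgpos : 0 < g := by
    have : (0 : ℝ) < g := by linarith
    exact_mod_cast this
  set M : ℕ := N / g with hM
  have hMg : M * g ≤ N := Nat.div_mul_le_self N g
  have hMg2 : N < (M + 1) * g := by
    have h5 := Nat.div_add_mod N g
    have h6 := Nat.mod_lt N hgpos
    rw [hM]
    calc N = g * (N / g) + N % g := h5.symm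
      _ < g * (N / g) + g := by omega
      _ = (N / g + 1) * g := by ring
  have hMg2R : (N : ℝ) < ((M : ℝ) + 1) * g := by exact_mod_cast hMg2
  have hM1 : (4 * L) ^ ρ < M := by
    by_contra hcon
    rw [not_lt] at hcon
    have hconR : (M : ℝ) ≤ ((4 * L : ℕ) : ℝ) ^ ρ := by exact_mod_cast hcon
    have c1 : (M : ℝ) * η ≤ 1 := (mul_le_mul_of_nonneg_right hconR hη.le).trans hLρ
    have c2 : (g : ℝ) ≤ 0.501 * (η * N) := by linarith
    have c3 : (N : ℝ) < ((M : ℝ) + 1) * (0.501 * (η * N)) :=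
      hMg2R.trans_le (mul_le_mul_of_nonneg_left c2 (by positivity))
    have c4 : ((M : ℝ) + 1) * (0.501 * (η * N)) = (0.501 * ((M : ℝ) * η + η)) * N := by ring
    rw [c4] at c3
    have c5 : 0.501 * ((M : ℝ) * η + η) ≤ 1 := by linarith
    nlinarith
  obtain ⟨i, hi0, hiM, hi⟩ := h1 N E (β / 13) g M L ρ (by positivity) (by
    refine le_trans ?_ hE1
    calc β / 13 * N ≤ (A.card * η) / 13 * N := by
          apply mul_le_mul_of_nonneg_right _ hNpos.le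
          linarith
      _ = A.card * η * N / 13 := by ring) hρ hL hM1
  -- the numbers y_j and k_j
  have hex : ∀ j : ℤ, |j| ≤ L → ∃ y : ℝ, ∃ k : ℤ, (∃ x₁ ∈ A, ∃ x₂ ∈ A, ∃ x₃ ∈ A, ∃ x₄ ∈ A,
      y = x₁ + x₂ - x₃ - x₄) ∧
      |(j : ℝ) * ((i : ℝ) * g) - N * y - N * k| ≤ η * N / 6 + 2 := by
    intro j hj
    obtain ⟨x₁, hx₁, x₂, hx₂, x₃, hx₃, x₄, hx₄, k, hk⟩ := hE2 _ (hi j hj)
    refine ⟨x₁ + x₂ - x₃ - x₄, k, ⟨x₁, hx₁, x₂, hx₂, x₃, hx₃, x₄, hx₄, rfl⟩, ?_⟩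
    push_cast at hk
    exact hk
  choose! y k hy hk using hex
  have hLZ : (1 : ℤ) ≤ L := by exact_mod_cast hL
  have hτ : 3 * (η * N / 6 + 2) < η * N := by linarith
  have hτ1 : η * N / 6 + 2 < η * N := by linarith
  have habs : ∀ u : ℝ, |N * u| < η * N → |u| < η := by
    intro u hu
    rw [abs_mul, abs_of_pos hNpos, mul_comm] at hu
    exact lt_of_mul_lt_mul_right hu hNpos.le
  -- (a)
  have hy0 : y 0 = 0 := by
    by_contra hne
    have h0 : |(0 : ℤ)| ≤ (L : ℤ) := by simp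
    obtain ⟨x₁, hx₁, x₂, hx₂, x₃, hx₃, x₄, hx₄, he⟩ := hy 0 h0
    have hm := core0_mem A hx₁ hx₂ ha0 ha0 ha0 ha0 hx₃ hx₄ ha0 ha0 ha0 ha0
    have e : (x₁ + x₂ + a0 + a0 + a0 + a0) - (x₃ + x₄ + a0 + a0 + a0 + a0) = y 0 := by
      rw [he]; ring
    rw [e] at hm
    have h3 := hsep _ hm hne (-(k 0))
    have h4 := hk 0 h0
    have h5 : |(N : ℝ) * (y 0 - ((-(k 0) : ℤ) : ℝ))| < η * N := by
      have e2 : (N : ℝ) * (y 0 - ((-(k 0) : ℤ) : ℝ)) =
          -(((0 : ℤ) : ℝ) * ((i : ℝ) * g) - N * y 0 - N * k 0) := by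
        push_cast
        ring
      rw [e2, abs_neg]
      exact lt_of_le_of_lt h4 hτ1
    exact absurd (habs _ h5) (not_lt.mpr h3)
  -- (b)
  have hstep : ∀ j : ℤ, -(L : ℤ) ≤ j → j < L → y (j + 1) = y j + y 1 := by
    intro j hj1 hj2
    have a1 : |j| ≤ (L : ℤ) := abs_le.mpr ⟨hj1, hj2.le⟩
    have a2 : |j + 1| ≤ (L : ℤ) := abs_le.mpr ⟨by linarith, by linarith⟩
    have a3 : |(1 : ℤ)| ≤ (L : ℤ) := by simpa using hLZ
    by_contra hne
    obtain ⟨p₁, hp₁, p₂, hp₂, p₃, hp₃, p₄, hp₄, hep⟩ := hy (j + 1) a2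
    obtain ⟨q₁, hq₁, q₂, hq₂, q₃, hq₃, q₄, hq₄, heq⟩ := hy j a1
    obtain ⟨r₁, hr₁, r₂, hr₂, r₃, hr₃, r₄, hr₄, her⟩ := hy 1 a3
    have hm := core0_mem A hp₁ hp₂ hq₃ hq₄ hr₃ hr₄ hp₃ hp₄ hq₁ hq₂ hr₁ hr₂
    have e : (p₁ + p₂ + q₃ + q₄ + r₃ + r₄) - (p₃ + p₄ + q₁ + q₂ + r₁ + r₂) =
        y (j + 1) - y j - y 1 := by
      rw [hep, heq, her]; ring
    rw [e] at hm
    have hne' : y (j + 1) - y j - y 1 ≠ 0 := by
      intro h
      apply hne
      linarith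
    have h3 := hsep _ hm hne' (-(k (j + 1) - k j - k 1))
    have b1 := abs_le.mp (hk (j + 1) a2)
    have b2 := abs_le.mp (hk j a1)
    have b3 := abs_le.mp (hk 1 a3)
    have h5 : |(N : ℝ) * (y (j + 1) - y j - y 1 - ((-(k (j + 1) - k j - k 1) : ℤ) : ℝ))| <
        η * N := by
      have e2 : (N : ℝ) * (y (j + 1) - y j - y 1 - ((-(k (j + 1) - k j - k 1) : ℤ) : ℝ)) =
          -((((j + 1 : ℤ) : ℝ) * ((i : ℝ) * g) - N * y (j + 1) - N * k (j + 1)) -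
          ((j : ℝ) * ((i : ℝ) * g) - N * y j - N * k j) -
          (((1 : ℤ) : ℝ) * ((i : ℝ) * g) - N * y 1 - N * k 1)) := by
        push_cast
        ring
      rw [e2, abs_neg]
      refine lt_of_le_of_lt (abs_sub _ _ |>.trans (add_le_add (abs_sub _ _) le_rfl)) ?_
      refine lt_of_le_of_lt (add_le_add (add_le_add (hk (j + 1) a2) (hk j a1)) (hk 1 a3)) ?_
      linarith
    exact absurd (habs _ h5) (not_lt.mpr h3)
  have hup : ∀ m : ℕ, (m : ℤ) ≤ L → y m = m * y 1 := by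
    intro m
    induction m with
    | zero =>
      intro _
      simp [hy0]
    | succ m ih =>
      intro hm
      have hm' : (m : ℤ) + 1 ≤ L := by exact_mod_cast hm
      have h3 := hstep m (by linarith [Int.natCast_nonneg m]) (by linarith)
      have h4 := ih (by linarith)
      push_cast
      rw [h3, h4]
      ring
  have hdown : ∀ m : ℕ, (m : ℤ) ≤ L → y (-(m : ℤ)) = -(m * y 1) := by
    intro m
    induction m with
    | zero =>
      intro _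
      simp [hy0]
    | succ m ih =>
      intro hm
      have hm' : (m : ℤ) + 1 ≤ L := by exact_mod_cast hm
      have h3 := hstep (-((m : ℤ) + 1)) (by linarith) (by linarith [Int.natCast_nonneg m])
      have e : -((m : ℤ) + 1) + 1 = -(m : ℤ) := by ring
      rw [e, ih (by linarith)] at h3
      push_cast
      linarith
  have hall : ∀ j : ℤ, |j| ≤ L → y j = j * y 1 := by
    intro j hj
    rcases le_total 0 j with h | h
    · have e : ((j.toNat : ℕ) : ℤ) = j := Int.toNat_of_nonneg h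
      have h3 := hup j.toNat (by rw [e]; exact (abs_le.mp hj).2)
      rw [e] at h3
      rw [h3]
      have e2 : ((j.toNat : ℕ) : ℝ) = (j : ℝ) := by
        have h5 : (((j.toNat : ℕ) : ℤ) : ℝ) = (j : ℝ) := by rw [e]
        rwa [Int.cast_natCast] at h5
      rw [e2]
    · have e : (((-j).toNat : ℕ) : ℤ) = -j := Int.toNat_of_nonneg (by linarith)
      have h3 := hdown (-j).toNat (by rw [e]; linarith [(abs_le.mp hj).1])
      rw [e, neg_neg] at h3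
      rw [h3]
      have e2 : (((-j).toNat : ℕ) : ℝ) = -(j : ℝ) := by
        have h5 : ((((-j).toNat : ℕ) : ℤ) : ℝ) = ((-j : ℤ) : ℝ) := by rw [e]
        rwa [Int.cast_natCast, Int.cast_neg] at h5
      rw [e2]
      ring
  -- (c)
  have hy1 : y 1 ≠ 0 := by
    intro h0
    have a3 : |(1 : ℤ)| ≤ (L : ℤ) := by simpa using hLZ
    have b3 := abs_le.mp (hk 1 a3)
    rw [h0] at b3
    push_cast at b3
    have hig : (g : ℝ) ≤ (i : ℝ) * g := by
      have : (1 : ℝ) ≤ i := by exact_mod_cast hi0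
      nlinarith
    have hig2 : (i : ℝ) * g ≤ N - g := by
      have h5 : (i : ℝ) + 1 ≤ M := by exact_mod_cast hiM
      have h6 : ((M : ℝ)) * g ≤ N := by exact_mod_cast hMg
      nlinarith
    rcases le_or_gt (k 1) 0 with h | h
    · have : (k 1 : ℝ) ≤ 0 := by exact_mod_cast h
      nlinarith [b3.1, b3.2]
    · have : (1 : ℝ) ≤ (k 1 : ℝ) := by
        have : (1 : ℤ) ≤ k 1 := h
        exact_mod_cast this
      nlinarith [b3.1, b3.2]
  refine ⟨y 1, hy1, ?_⟩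
  intro j hj
  obtain ⟨x₁, hx₁, x₂, hx₂, x₃, hx₃, x₄, hx₄, he⟩ := hy j hj
  refine ⟨x₁, hx₁, x₂, hx₂, x₃, hx₃, x₄, hx₄, ?_⟩
  rw [← hall j hj, he]

end Pool.Agent.RR95
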