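import Pool.Agent.Lib.MP_95b053_co.Spec

/-!
# MP_95b053_co: Dirichlet's theorem
-/

set_option autoImplicit false

namespace Pool.Agent.RR95

open Finset

private theorem dir_floor_mem (N : ℕ) (hN : 0 < N) (x : ℝ) :
    ⌊(N : ℝ) * Int.fract x⌋₊ ∈ Finset.range N := by
  have hN' : (0 : ℝ) < N := by exact_mod_cast hN
  rw [Finset.mem_range, Nat.floor_lt (mul_nonneg hN'.le (Int.fract_nonneg x))]
  nlinarith [Int.fract_lt_one x]

private theorem dir_close (N : ℕ) (hN : 0 < N) (x y : ℝ)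
    (h : ⌊(N : ℝ) * Int.fract x⌋₊ = ⌊(N : ℝ) * Int.fract y⌋₊) :
    |(x - y) - ((⌊x⌋ - ⌊y⌋ : ℤ) : ℝ)| ≤ 1 / N := by
  have hN' : (0 : ℝ) < N := by exact_mod_cast hN
  have e : (x - y) - ((⌊x⌋ - ⌊y⌋ : ℤ) : ℝ) = Int.fract x - Int.fract y := by
    push_cast
    rw [← Int.self_sub_floor, ← Int.self_sub_floor]
    ring
  rw [e]
  have h1 := Nat.floor_le (mul_nonneg hN'.le (Int.fract_nonneg x))
  have h2 := Nat.lt_floor_add_one ((N : ℝ) * Int.fract x)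
  have h3 := Nat.floor_le (mul_nonneg hN'.le (Int.fract_nonneg y))
  have h4 := Nat.lt_floor_add_one ((N : ℝ) * Int.fract y)
  rw [h] at h1 h2
  rw [le_div_iff₀ hN', ← abs_of_pos hN', ← abs_mul, abs_le]
  constructor <;> nlinarith

theorem rDir : S_Dir := by
  intro N g M Q _ R hQ hM
  obtain ⟨f, hfdef⟩ : ∃ f : ℕ → (R → ℕ), f = fun (i : ℕ) (r : R) =>
    ⌊(Q : ℝ) * Int.fract ((r.1.val : ℝ) * ((i * g : ℕ) : ℝ) / N)⌋₊ := ⟨_, rfl⟩
  have hf : ∀ i ∈ Finset.range M, f i ∈ Fintype.piFinset (fun _ : R => Finset.range Q) := by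
    intro i _
    rw [Fintype.mem_piFinset, hfdef]
    exact fun r => dir_floor_mem Q hQ _
  have hcard : (Fintype.piFinset (fun _ : R => Finset.range Q)).card < (Finset.range M).card := by
    rw [Fintype.card_piFinset, Finset.card_range]
    simpa using hM
  obtain ⟨i1, hi1, i2, hi2, hne, heq⟩ := Finset.exists_ne_map_eq_of_card_lt_of_maps_to hcard hf
  rw [Finset.mem_range] at hi1 hi2
  wlog hlt : i1 < i2 generalizing i1 i2
  · exact this i2 hi2 i1 hi1 hne.symm heq.symm (by omega)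
  refine ⟨i2 - i1, by omega, by omega, fun r hr => ?_⟩
  have hi : ⌊(Q : ℝ) * Int.fract ((r.val : ℝ) * ((i2 * g : ℕ) : ℝ) / N)⌋₊
      = ⌊(Q : ℝ) * Int.fract ((r.val : ℝ) * ((i1 * g : ℕ) : ℝ) / N)⌋₊ := by
    have := congrFun heq ⟨r, hr⟩
    rw [hfdef] at this
    exact this.symm
  have h := dir_close Q hQ _ _ hi
  refine ⟨⌊(r.val : ℝ) * ((i2 * g : ℕ) : ℝ) / N⌋ - ⌊(r.val : ℝ) * ((i1 * g : ℕ) : ℝ) / N⌋, ?_⟩
  have e : (r.val : ℝ) * (((i2 - i1) * g : ℕ) : ℝ) / N =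
      (r.val : ℝ) * ((i2 * g : ℕ) : ℝ) / N - (r.val : ℝ) * ((i1 * g : ℕ) : ℝ) / N := by
    rw [Nat.cast_mul, Nat.cast_sub hlt.le]
    push_cast
    ring
  rw [e]
  exact h

end Pool.Agent.RR95
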