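import Pool.Agent.Lib.MP_95b053_co.Spec

/-!
# MP_95b053_co: a linear functional which does not vanish on given nonzero vectors (`Fun`)
-/

namespace Pool.Agent.RR95

theorem rFun : S_Fun := by
  intro S
  classical
  haveI : Finite {y : ℝ × ℝ × ℝ // y ∈ S ∧ y ≠ 0} :=
    (S.finite_toSet.subset fun y hy => hy.1 : {y : ℝ × ℝ × ℝ | y ∈ S ∧ y ≠ 0}.Finite).to_subtype
  obtain ⟨f, hf⟩ := Module.exists_dual_forall_apply_ne_zero (K := ℝ) (M := ℝ × ℝ × ℝ)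
    (fun i : {y : ℝ × ℝ × ℝ // y ∈ S ∧ y ≠ 0} => i.1) (fun i => i.2.2)
  exact ⟨f, fun y hy hy0 => hf ⟨y, hy, hy0⟩⟩

end Pool.Agent.RR95
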