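import Pool.Agent.Lib.MP_95b053_co.Spec

set_option autoImplicit false

namespace Pool.Agent.RR95

open Finset
open scoped Pointwise

private theorem mem_three_two (V : Finset (ℝ × ℝ × ℝ)) (u a b c d : ℝ × ℝ × ℝ) (hu : u ∈ V) (ha : a ∈ V)
    (hb : b ∈ V) (hc : c ∈ V) (hd : d ∈ V) : u + (a + b - c - d) ∈ 3 • V - 2 • V := by
  have h1 : u + a + b ∈ 3 • V := by
    rw [show (3 : ℕ) = 2 + 1 from rfl, succ_nsmul, show (2 : ℕ) = 1 + 1 from rfl, succ_nsmul, one_nsmul]
    exact Finset.add_mem_add (Finset.add_mem_add hu ha) hb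
  have h2 : c + d ∈ 2 • V := by
    rw [show (2 : ℕ) = 1 + 1 from rfl, succ_nsmul, one_nsmul]
    exact Finset.add_mem_add hc hd
  have h3 : u + (a + b - c - d) = (u + a + b) - (c + d) := by abel
  rw [h3]
  exact Finset.sub_mem_sub h1 h2

private theorem plu (V : Finset (ℝ × ℝ × ℝ)) (K : ℝ) (hV : V.Nonempty)
    (hK : ((V - V).card : ℝ) ≤ K * V.card) : ((3 • V - 2 • V).card : ℝ) ≤ K ^ 5 * V.card := by
  have h1 := Finset.pluennecke_ruzsa_inequality_nsmul_sub_nsmul_sub hV V 3 2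
  have h2 : (((3 • V - 2 • V).card : ℚ≥0) : ℝ) ≤
      (((((V - V).card : ℚ≥0) / (V.card : ℚ≥0)) ^ (3 + 2) * (V.card : ℚ≥0) : ℚ≥0) : ℝ) := by
    exact_mod_cast h1
  have hpos : (0 : ℝ) < (V.card : ℝ) := by exact_mod_cast hV.card_pos
  push_cast at h2
  have h3 : ((V - V).card : ℝ) / (V.card : ℝ) ≤ K := by
    rw [div_le_iff₀ hpos]; exact hK
  have h4 : (0 : ℝ) ≤ ((V - V).card : ℝ) / (V.card : ℝ) := by positivity
  refine h2.trans ?_
  have h5 : (((V - V).card : ℝ) / (V.card : ℝ)) ^ (3 + 2) ≤ K ^ 5 := by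
    simpa using pow_le_pow_left₀ h4 h3 5
  exact mul_le_mul_of_nonneg_right h5 hpos.le

theorem rLine : S_Line := by
  classical
  intro V K L v hV hK hv hj
  have hcard := plu V K hV hK
  let F : (ℝ × ℝ × ℝ) → Finset (ℝ × ℝ × ℝ) := fun p => V.filter (fun q => ∃ s : ℝ, q = p + s • v)
  obtain ⟨p, hp, hmax⟩ := Finset.exists_max_image V (fun p => (F p).card) hV
  refine ⟨p, hp, F p, Finset.filter_subset _ _, fun q hq => (Finset.mem_filter.1 hq).2, ?_⟩
  have hinj : ∀ j j' : ℤ, (j : ℝ) • v = (j' : ℝ) • v → j = j' := by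
    intro j j' h
    have h1 : ((j : ℝ) - (j' : ℝ)) • v = 0 := by rw [sub_smul, h, sub_self]
    rcases smul_eq_zero.1 h1 with h2 | h2
    · exact_mod_cast sub_eq_zero.1 h2
    · exact absurd h2 hv
  have key : (V ×ˢ Finset.Icc (-(L : ℤ)) (L : ℤ)).card ≤ (F p).card * (3 • V - 2 • V).card := by
    refine Finset.card_le_mul_card_image_of_maps_to
      (f := fun z : (ℝ × ℝ × ℝ) × ℤ => z.1 + (z.2 : ℝ) • v) ?_ _ ?_
    · rintro ⟨u, j⟩ hz
      rw [Finset.mem_product, Finset.mem_Icc] at hz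
      obtain ⟨hu, hj1⟩ := hz
      obtain ⟨a, ha, b, hb, c, hc, d, hd, he⟩ := hj j (abs_le.2 hj1)
      show u + (j : ℝ) • v ∈ _
      rw [he]
      exact mem_three_two V u a b c d hu ha hb hc hd
    · intro w _
      rcases Finset.eq_empty_or_nonempty
        ((V ×ˢ Finset.Icc (-(L : ℤ)) (L : ℤ)).filter (fun z => z.1 + (z.2 : ℝ) • v = w)) with h0 | ⟨z0, hz0⟩
      · rw [h0]; simp
      · rw [Finset.mem_filter, Finset.mem_product] at hz0
        obtain ⟨⟨hu0, _⟩, hw0⟩ := hz0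
        refine le_trans ?_ (hmax z0.1 hu0)
        refine Finset.card_le_card_of_injOn (fun z => z.1) ?_ ?_
        · intro z hz
          rw [Finset.mem_coe, Finset.mem_filter, Finset.mem_product] at hz
          obtain ⟨⟨hu, _⟩, hw⟩ := hz
          rw [Finset.mem_coe]
          refine Finset.mem_filter.2 ⟨hu, (z0.2 : ℝ) - (z.2 : ℝ), ?_⟩
          have : z.1 = z0.1 + (z0.2 : ℝ) • v - (z.2 : ℝ) • v := by
            rw [hw0, ← hw]; abel
          show z.1 = z0.1 + ((z0.2 : ℝ) - (z.2 : ℝ)) • v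
          rw [this, sub_smul]; abel
        · intro z hz z' hz' he
          rw [Finset.mem_coe, Finset.mem_filter] at hz hz'
          have h1 := hz.2.trans hz'.2.symm
          have he' : z.1 = z'.1 := he
          rw [he'] at h1
          have h2 := hinj z.2 z'.2 (add_left_cancel h1)
          exact Prod.ext he' h2
  rw [Finset.card_product, Int.card_Icc] at key
  have hk2 : ((L : ℤ) + 1 - -(L : ℤ)).toNat = 2 * L + 1 := by omega
  rw [hk2] at key
  have hpos : (0 : ℝ) < (V.card : ℝ) := by exact_mod_cast hV.card_pos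
  have key' : (V.card : ℝ) * (2 * L + 1 : ℝ) ≤ ((F p).card : ℝ) * ((3 • V - 2 • V).card : ℝ) := by
    exact_mod_cast key
  have h6 : (V.card : ℝ) * (2 * L + 1 : ℝ) ≤ (V.card : ℝ) * (K ^ 5 * (F p).card) := by
    refine key'.trans ?_
    calc ((F p).card : ℝ) * ((3 • V - 2 • V).card : ℝ) ≤ ((F p).card : ℝ) * (K ^ 5 * V.card) :=
          mul_le_mul_of_nonneg_left hcard (by positivity)
      _ = (V.card : ℝ) * (K ^ 5 * (F p).card) := by ring
  exact le_of_mul_le_mul_left h6 hpos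

end Pool.Agent.RR95
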