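import Pool.Agent.Lib.MP_95b053_co.Spec

/-!
# MP_95b053_co: the real part of characters near `1` (`Pos`)
-/

namespace Pool.Agent.RR95

open Real

theorem rPos : S_Pos := by
  intro N _ r T m h
  have h1 : r * (T : ZMod N) = (((r.val : ℤ) * T : ℤ) : ZMod N) := by
    push_cast
    rw [ZMod.natCast_val, ZMod.cast_id]
  rw [h1, ZMod.stdAddChar_coe]
  set ε : ℝ := (r.val : ℝ) * (T : ℝ) / N - m with hε
  have h2 : (2 * (π : ℂ) * Complex.I * (((r.val : ℤ) * T : ℤ) : ℂ) / (N : ℂ)) =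
      ((2 * π * ε + m * (2 * π) : ℝ) : ℂ) * Complex.I := by
    rw [hε]
    push_cast
    ring
  rw [h2, Complex.exp_ofReal_mul_I_re, Real.cos_add_int_mul_two_pi]
  have h3 := abs_le.1 h
  apply Real.cos_nonneg_of_neg_pi_div_two_le_of_le
  · nlinarith [Real.pi_pos, h3.1]
  · nlinarith [Real.pi_pos, h3.2]

end Pool.Agent.RR95
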