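import Pool.Agent.Lib.MP_95b053_co.Spec

/-!
# MP_95b053_co: the thickened image of a set in `ℤ/N`
-/

set_option autoImplicit false

namespace Pool.Agent.RR95

open Finset
open scoped Pointwise

theorem rThick : S_Thick := by
  intro A η N hN0 hη hη4 h1000 hsep
  classical
  have hNpos : (0 : ℝ) < N := by
    have := Nat.pos_of_ne_zero (NeZero.ne N)
    exact_mod_cast this
  set w : ℕ := ⌊η * N / 24⌋₊ with hw
  have hw1 : (w : ℝ) ≤ η * N / 24 := Nat.floor_le (by positivity)
  have hw2 : η * N / 24 < w + 1 := Nat.lt_floor_add_one _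
  set F : ℝ × ℤ → ZMod N := fun p => ((round ((N : ℝ) * p.1) + p.2 : ℤ) : ZMod N) with hF
  set D : Finset (ℝ × ℤ) := A ×ˢ Finset.Icc (-(w : ℤ)) w with hD
  have hround : ∀ x : ℝ, |(N : ℝ) * x - (round ((N : ℝ) * x) : ℤ)| ≤ 1 / 2 := fun x => abs_sub_round _
  refine ⟨D.image F, ?_, ?_⟩
  · have hinj : Set.InjOn F (D : Set (ℝ × ℤ)) := by
      rintro ⟨x, i⟩ hx ⟨x', i'⟩ hx' heq
      rw [Finset.mem_coe, hD, mem_product, Finset.mem_Icc] at hx hx'
      obtain ⟨hxA, hi1, hi2⟩ := hx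
      obtain ⟨hxA', hi1', hi2'⟩ := hx'
      simp only at hxA hi1 hi2 hxA' hi1' hi2'
      have heq' : ((round ((N : ℝ) * x) + i : ℤ) : ZMod N) =
          ((round ((N : ℝ) * x') + i' : ℤ) : ZMod N) := heq
      rw [ZMod.intCast_eq_intCast_iff_dvd_sub] at heq'
      obtain ⟨k, hk⟩ := heq'
      have hkR : ((round ((N : ℝ) * x') : ℤ) : ℝ) + i' - ((round ((N : ℝ) * x) : ℤ) + i) =
          (N : ℝ) * k := by
        have := congrArg (fun z : ℤ => (z : ℝ)) hk
        push_cast at this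
        exact this
      have b1 := abs_le.mp (hround x)
      have b2 := abs_le.mp (hround x')
      have c1 : (-(w : ℝ)) ≤ i := by exact_mod_cast hi1
      have c2 : (i : ℝ) ≤ w := by exact_mod_cast hi2
      have c3 : (-(w : ℝ)) ≤ i' := by exact_mod_cast hi1'
      have c4 : (i' : ℝ) ≤ w := by exact_mod_cast hi2'
      have hxx : x = x' := by
        by_contra hne
        have hs := hsep x hxA x' hxA' hne (-k)
        have h1 : |(N : ℝ) * (x - x' - ((-k : ℤ) : ℝ))| ≤ 2 * w + 1 := by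
          rw [abs_le]
          push_cast
          constructor <;> linarith
        rw [abs_mul, abs_of_pos hNpos] at h1
        have h2 : (N : ℝ) * η ≤ N * |x - x' - ((-k : ℤ) : ℝ)| :=
          mul_le_mul_of_nonneg_left hs hNpos.le
        nlinarith
      subst hxx
      have hik : (i' : ℤ) - i = N * k := by linarith
      have hk0 : k = 0 := by
        by_contra hk0
        have hNw : (2 * w : ℝ) < N := by nlinarith
        have hNw' : (2 * w : ℤ) < N := by exact_mod_cast hNw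
        rcases lt_or_gt_of_ne hk0 with h | h
        · have : (N : ℤ) * k ≤ N * (-1) :=
            mul_le_mul_of_nonneg_left (by omega) (by positivity)
          omega
        · have : (N : ℤ) * 1 ≤ N * k :=
            mul_le_mul_of_nonneg_left (by omega) (by positivity)
          omega
      rw [hk0, mul_zero] at hik
      have : i = i' := by omega
      rw [this]
    rw [Finset.card_image_of_injOn hinj, hD, Finset.card_product, Int.card_Icc]
    have hcard : ((w : ℤ) + 1 - (-(w : ℤ))).toNat = 2 * w + 1 := by omega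
    rw [hcard]
    push_cast
    have h3 : η * N / 13 ≤ 2 * w + 1 := by linarith
    calc (A.card : ℝ) * η * N / 13 = A.card * (η * N / 13) := by ring
      _ ≤ A.card * (2 * w + 1) := mul_le_mul_of_nonneg_left h3 (by positivity)
  · rintro T ⟨a, ha, b, hb, c, hc, d, hd, hT⟩
    rw [mem_image] at ha hb hc hd
    obtain ⟨⟨x₁, i₁⟩, hx1, rfl⟩ := ha
    obtain ⟨⟨x₂, i₂⟩, hx2, rfl⟩ := hb
    obtain ⟨⟨x₃, i₃⟩, hx3, rfl⟩ := hc
    obtain ⟨⟨x₄, i₄⟩, hx4, rfl⟩ := hd
    rw [hD, mem_product, Finset.mem_Icc] at hx1 hx2 hx3 hx4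
    simp only at hx1 hx2 hx3 hx4
    have hT' : ((T : ℤ) : ZMod N) = (((round ((N : ℝ) * x₁) + i₁) + (round ((N : ℝ) * x₂) + i₂) -
        (round ((N : ℝ) * x₃) + i₃) - (round ((N : ℝ) * x₄) + i₄) : ℤ) : ZMod N) := by
      rw [hT]
      simp only [hF]
      push_cast
      ring
    rw [ZMod.intCast_eq_intCast_iff_dvd_sub] at hT'
    obtain ⟨k, hk⟩ := hT'
    refine ⟨x₁, hx1.1, x₂, hx2.1, x₃, hx3.1, x₄, hx4.1, -k, ?_⟩
    have hkR := congrArg (fun z : ℤ => (z : ℝ)) hk
    push_cast at hkR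
    have b1 := abs_le.mp (hround x₁)
    have b2 := abs_le.mp (hround x₂)
    have b3 := abs_le.mp (hround x₃)
    have b4 := abs_le.mp (hround x₄)
    have c1 : (-(w : ℝ)) ≤ i₁ := by exact_mod_cast hx1.2.1
    have c2 : (i₁ : ℝ) ≤ w := by exact_mod_cast hx1.2.2
    have c3 : (-(w : ℝ)) ≤ i₂ := by exact_mod_cast hx2.2.1
    have c4 : (i₂ : ℝ) ≤ w := by exact_mod_cast hx2.2.2
    have c5 : (-(w : ℝ)) ≤ i₃ := by exact_mod_cast hx3.2.1
    have c6 : (i₃ : ℝ) ≤ w := by exact_mod_cast hx3.2.2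
    have c7 : (-(w : ℝ)) ≤ i₄ := by exact_mod_cast hx4.2.1
    have c8 : (i₄ : ℝ) ≤ w := by exact_mod_cast hx4.2.2
    rw [abs_le]
    push_cast
    constructor <;> linarith

end Pool.Agent.RR95
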