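import Pool.Agent.Lib.MP_95b053_co.Spec

/-!
# MP_95b053_co, Theorem A: assembly
-/

set_option autoImplicit false

namespace Pool.Agent.RR95

open Finset
open scoped Pointwise

theorem rMain (hPairs : S_Pairs) (hSmall : S_Small) (hAP : S_AP) (hLine : S_Line) (hBack : S_Back)
    (hTwo : S_Two) (hNum : S_Num) : S_Main := by
  classical
  intro P Λ a b d α hP hΛ hα hα1 hφ hlines
  obtain ⟨L2, hL2d, hL2⟩ := hTwo P hP
  -- a line with the maximal number of points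
  have hbd : ∀ L : AffineSubspace ℝ (ℝ × ℝ),
      ((P : Set (ℝ × ℝ)) ∩ (L : Set (ℝ × ℝ))).ncard ≤ P.card := by
    intro L
    have h := Set.ncard_le_ncard (s := (P : Set (ℝ × ℝ)) ∩ (L : Set (ℝ × ℝ)))
      (t := (P : Set (ℝ × ℝ))) Set.inter_subset_left P.finite_toSet
    rwa [Set.ncard_coe_finset] at h
  set S : Set ℕ := (fun L : AffineSubspace ℝ (ℝ × ℝ) =>
    ((P : Set (ℝ × ℝ)) ∩ (L : Set (ℝ × ℝ))).ncard) '' {L | Module.finrank ℝ L.direction = 1} with hS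
  have hSne : S.Nonempty := ⟨_, L2, hL2d, rfl⟩
  have hSbdd : BddAbove S := by
    refine ⟨P.card, ?_⟩
    rintro _ ⟨L, _, rfl⟩
    exact hbd L
  obtain ⟨L0, hL0d, hL0⟩ := Nat.sSup_mem hSne hSbdd
  have hmax : ∀ L : AffineSubspace ℝ (ℝ × ℝ), Module.finrank ℝ L.direction = 1 →
      ((P : Set (ℝ × ℝ)) ∩ (L : Set (ℝ × ℝ))).ncard ≤
        ((P : Set (ℝ × ℝ)) ∩ (L0 : Set (ℝ × ℝ))).ncard := by
    intro L hL
    have h1 : ((P : Set (ℝ × ℝ)) ∩ (L : Set (ℝ × ℝ))).ncard ≤ sSup S :=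
      le_csSup hSbdd ⟨L, hL, rfl⟩
    exact h1.trans hL0.ge
  refine ⟨L0, hL0d, ?_⟩
  -- the set of small doubling
  have hPne : P.Nonempty := Finset.card_pos.1 (by omega)
  have hΛ1 : (1 : ℝ) ≤ Λ.card := by exact_mod_cast hΛ.card_pos
  have hγ0 : 0 < α / Λ.card := div_pos hα (by linarith)
  have hγ1 : α / Λ.card ≤ 1 := by
    rw [div_le_one (by linarith)]
    linarith
  obtain ⟨P', hP', hcard, t, _, ht0, ht1, hcnt⟩ := hPairs P Λ a b d α hPne hα hφ hlines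
  have hP'ne : P'.Nonempty := by
    rw [← Finset.card_pos, hcard]
    omega
  obtain ⟨V, hVP, hVcard, hVV⟩ := hSmall P' t (α / Λ.card) hP'ne ht0 ht1 hγ0 hcnt
  rw [hcard] at hVcard
  set γ : ℝ := α / Λ.card with hγ
  have hVpos : 0 < (V.card : ℝ) := by
    have h1 : 0 < γ ^ 2 / 4 * (P.card : ℝ) := by
      have h2 : (0 : ℝ) < P.card := by
        have := hPne.card_pos
        exact_mod_cast this
      positivity
    linarith
  have hVne : V.Nonempty := Finset.card_pos.1 (by exact_mod_cast hVpos)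
  have hK : ((V - V).card : ℝ) ≤ 2 ^ 23 / γ ^ 20 * V.card := by
    rw [div_mul_eq_mul_div, le_div_iff₀ (by positivity)]
    exact hVV
  have hexp : α / (2 * Λ.card) = γ / 2 := by
    rw [hγ, div_div, mul_comm]
  rw [hexp]
  refine hNum P.card _ γ (by exact_mod_cast hPne.card_pos) ?_ hγ0 hγ1 ?_
  · have h := hmax L2 hL2d
    exact_mod_cast hL2.trans h
  intro L ρ hL hρ h4
  have h4' : (4 * L) ^ ρ ≤ V.card := by
    have h5 : (((4 * L) ^ ρ : ℕ) : ℝ) ≤ (V.card : ℝ) := by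
      rw [Nat.cast_pow]
      exact h4.trans hVcard
    exact_mod_cast h5
  obtain ⟨v, hv, hvj⟩ := hAP V (2 ^ 23 / γ ^ 20) L ρ hVne hK hρ hL h4'
  obtain ⟨p, _, T, hTV, hTl, hT⟩ := hLine V (2 ^ 23 / γ ^ 20) L v hVne hK hv hvj
  have hTP : T ⊆ P.image (lift a b d) := hP' ▸ hTV.trans hVP
  obtain ⟨L1, hL1d, hL1⟩ := hBack P a b d p v T hφ hTP hTl
  have h6 : (T.card : ℝ) ≤ (((P : Set (ℝ × ℝ)) ∩ (L0 : Set (ℝ × ℝ))).ncard : ℝ) := by
    exact_mod_cast hL1.trans (hmax L1 hL1d)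
  exact hT.trans (mul_le_mul_of_nonneg_left h6 (by positivity))

end Pool.Agent.RR95
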