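import Pool.Agent.Lib.MP_95b053_co.Spec

/-!
# MP_95b053_co, Theorem A: assembly, several lines at infinity
-/

set_option autoImplicit false

namespace Pool.Agent.RR95

open Finset
open scoped Pointwise

/-- the lines which contain three different points of `P`, none of them on `aff a b d = 0`, with
ratio `t` for some `((a, b, d), t) ∈ F` -/
def famLines (P : Finset (ℝ × ℝ)) (F : Finset ((ℝ × ℝ × ℝ) × ℝ)) :
    Set (AffineSubspace ℝ (ℝ × ℝ)) :=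
  {L | Module.finrank ℝ L.direction = 1 ∧ ∃ f ∈ F, ∃ p ∈ P, ∃ q ∈ P, ∃ r ∈ P,
    p ∈ L ∧ q ∈ L ∧ r ∈ L ∧ p ≠ q ∧ p ≠ r ∧ q ≠ r ∧
    aff f.1.1 f.1.2.1 f.1.2.2 p ≠ 0 ∧ aff f.1.1 f.1.2.1 f.1.2.2 q ≠ 0 ∧
    aff f.1.1 f.1.2.1 f.1.2.2 r ≠ 0 ∧ Ratio f.1.1 f.1.2.1 f.1.2.2 p q r f.2}

private theorem main2_one (hPairs : S_Pairs) (hSmall : S_Small) (hAP : S_AP) (hLine : S_Line)
    (hBack : S_Back) (hTwo : S_Two) (hNum : S_Num) (P P₁ : Finset (ℝ × ℝ)) (a b d t γ : ℝ)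
    (hP : 2 ≤ P.card) (hγ0 : 0 < γ) (hP₁ : P₁ ⊆ P) (hφ : ∀ p ∈ P₁, aff a b d p ≠ 0)
    (hlines : γ * (P.card : ℝ) ^ 2 ≤ ((ratioLines P₁ {t} a b d).ncard : ℝ)) :
    ∃ L : AffineSubspace ℝ (ℝ × ℝ), Module.finrank ℝ L.direction = 1 ∧
      (P.card : ℝ) ^ ((γ / 2) ^ 600) ≤
        (((P : Set (ℝ × ℝ)) ∩ (L : Set (ℝ × ℝ))).ncard : ℝ) := by
  classical
  obtain ⟨L2, hL2d, hL2⟩ := hTwo P hP
  -- a line with the maximal number of points
  have hbd : ∀ L : AffineSubspace ℝ (ℝ × ℝ),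
      ((P : Set (ℝ × ℝ)) ∩ (L : Set (ℝ × ℝ))).ncard ≤ P.card := by
    intro L
    have h := Set.ncard_le_ncard (s := (P : Set (ℝ × ℝ)) ∩ (L : Set (ℝ × ℝ)))
      (t := (P : Set (ℝ × ℝ))) Set.inter_subset_left P.finite_toSet
    rwa [Set.ncard_coe_finset] at h
  set S : Set ℕ := (fun L : AffineSubspace ℝ (ℝ × ℝ) =>
    ((P : Set (ℝ × ℝ)) ∩ (L : Set (ℝ × ℝ))).ncard) '' {L | Module.finrank ℝ L.direction = 1} with hS
  have hSne : S.Nonempty := ⟨_, L2, hL2d, rfl⟩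
  have hSbdd : BddAbove S := by
    refine ⟨P.card, ?_⟩
    rintro _ ⟨L, _, rfl⟩
    exact hbd L
  obtain ⟨L0, hL0d, hL0⟩ := Nat.sSup_mem hSne hSbdd
  have hmax : ∀ L : AffineSubspace ℝ (ℝ × ℝ), Module.finrank ℝ L.direction = 1 →
      ((P : Set (ℝ × ℝ)) ∩ (L : Set (ℝ × ℝ))).ncard ≤
        ((P : Set (ℝ × ℝ)) ∩ (L0 : Set (ℝ × ℝ))).ncard := by
    intro L hL
    have h1 : ((P : Set (ℝ × ℝ)) ∩ (L : Set (ℝ × ℝ))).ncard ≤ sSup S :=
      le_csSup hSbdd ⟨L, hL, rfl⟩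
    exact h1.trans hL0.ge
  refine ⟨L0, hL0d, ?_⟩
  have hn0 : (0 : ℝ) < P.card := by
    have : 0 < P.card := by omega
    exact_mod_cast this
  -- the points off the line at infinity
  have hP₁ne : P₁.Nonempty := by
    by_contra hne
    rw [Finset.not_nonempty_iff_eq_empty] at hne
    have h0 : ratioLines P₁ {t} a b d = ∅ := by
      rw [hne]
      ext L
      simp [ratioLines]
    rw [h0, Set.ncard_empty, Nat.cast_zero] at hlines
    have : 0 < γ * (P.card : ℝ) ^ 2 := by positivity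
    linarith
  have hm0 : (0 : ℝ) < P₁.card := by exact_mod_cast hP₁ne.card_pos
  have hmn : (P₁.card : ℝ) ≤ P.card := by exact_mod_cast Finset.card_le_card hP₁
  set n : ℝ := (P.card : ℝ) with hn
  set m : ℝ := (P₁.card : ℝ) with hm
  set γ₁ : ℝ := γ * n ^ 2 / m ^ 2 with hγ₁
  have hγγ : γ ≤ γ₁ := by
    rw [hγ₁, le_div_iff₀ (by positivity)]
    exact mul_le_mul_of_nonneg_left (pow_le_pow_left₀ hm0.le hmn 2) hγ0.le
  have hγ₁0 : 0 < γ₁ := lt_of_lt_of_le hγ0 hγγ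
  have hγ₁m : γ₁ * m ^ 2 = γ * n ^ 2 := by
    rw [hγ₁]
    field_simp
  obtain ⟨P', hP', hcard, t', _, ht0, ht1, hcnt⟩ := hPairs P₁ {t} a b d γ₁ hP₁ne hγ₁0 hφ (by
    rw [← hm, hγ₁m]
    exact hlines)
  rw [Finset.card_singleton, Nat.cast_one, div_one] at hcnt
  have hP'ne : P'.Nonempty := by
    rw [← Finset.card_pos, hcard]
    exact hP₁ne.card_pos
  have hP'm : (P'.card : ℝ) = m := by rw [hcard]
  have hγ₁1 : γ₁ ≤ 1 := by
    have h1 : (((P' ×ˢ P').filter fun z => (1 - t') • z.1 + t' • z.2 ∈ P').card : ℝ) ≤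
        (P'.card : ℝ) ^ 2 := by
      have h2 := Finset.card_filter_le (P' ×ˢ P') fun z => (1 - t') • z.1 + t' • z.2 ∈ P'
      rw [Finset.card_product] at h2
      have h3 : ((((P' ×ˢ P').filter fun z => (1 - t') • z.1 + t' • z.2 ∈ P').card : ℕ) : ℝ) ≤
          ((P'.card * P'.card : ℕ) : ℝ) := by exact_mod_cast h2
      rw [Nat.cast_mul] at h3
      nlinarith
    have h4 : γ₁ * (P'.card : ℝ) ^ 2 ≤ 1 * (P'.card : ℝ) ^ 2 := by
      rw [one_mul]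
      exact hcnt.trans h1
    exact le_of_mul_le_mul_right h4 (by rw [hP'm]; positivity)
  have hγ1 : γ ≤ 1 := hγγ.trans hγ₁1
  obtain ⟨V, hVP, hVcard, hVV⟩ := hSmall P' t' γ₁ hP'ne ht0 ht1 hγ₁0 hcnt
  rw [hP'm] at hVcard
  have hVcard' : γ ^ 2 / 4 * n ≤ V.card := by
    refine le_trans ?_ hVcard
    have h1 : γ₁ ^ 2 * m = γ ^ 2 * n ^ 4 / m ^ 3 := by
      rw [hγ₁]
      field_simp
    have h2 : γ ^ 2 * n ≤ γ₁ ^ 2 * m := by
      rw [h1, le_div_iff₀ (by positivity)]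
      have h3 : m ^ 3 ≤ n ^ 3 := pow_le_pow_left₀ hm0.le hmn 3
      have h4 : γ ^ 2 * n * m ^ 3 ≤ γ ^ 2 * n * n ^ 3 := mul_le_mul_of_nonneg_left h3 (by positivity)
      calc γ ^ 2 * n * m ^ 3 ≤ γ ^ 2 * n * n ^ 3 := h4
        _ = γ ^ 2 * n ^ 4 := by ring
    linarith
  have hVpos : 0 < (V.card : ℝ) := by
    have h1 : 0 < γ ^ 2 / 4 * n := by positivity
    linarith
  have hVne : V.Nonempty := Finset.card_pos.1 (by exact_mod_cast hVpos)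
  have hK : ((V - V).card : ℝ) ≤ 2 ^ 23 / γ ^ 20 * V.card := by
    rw [div_mul_eq_mul_div, le_div_iff₀ (by positivity)]
    refine le_trans ?_ hVV
    exact mul_le_mul_of_nonneg_left (pow_le_pow_left₀ hγ0.le hγγ 20) (by positivity)
  refine hNum n _ γ ?_ ?_ hγ0 hγ1 ?_
  · have : 1 ≤ P.card := by omega
    rw [hn]
    exact_mod_cast this
  · have h := hmax L2 hL2d
    exact_mod_cast hL2.trans h
  intro L ρ hL hρ h4
  have h4' : (4 * L) ^ ρ ≤ V.card := by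
    have h5 : (((4 * L) ^ ρ : ℕ) : ℝ) ≤ (V.card : ℝ) := by
      rw [Nat.cast_pow]
      exact h4.trans hVcard'
    exact_mod_cast h5
  obtain ⟨v, hv, hvj⟩ := hAP V (2 ^ 23 / γ ^ 20) L ρ hVne hK hρ hL h4'
  obtain ⟨p, _, T, hTV, hTl, hT⟩ := hLine V (2 ^ 23 / γ ^ 20) L v hVne hK hv hvj
  have hTP : T ⊆ P₁.image (lift a b d) := hP' ▸ hTV.trans hVP
  obtain ⟨L1, hL1d, hL1⟩ := hBack P₁ a b d p v T hφ hTP hTl
  have hsub : ((P₁ : Set (ℝ × ℝ)) ∩ (L1 : Set (ℝ × ℝ))).ncard ≤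
      ((P : Set (ℝ × ℝ)) ∩ (L1 : Set (ℝ × ℝ))).ncard := by
    apply Set.ncard_le_ncard
    · exact Set.inter_subset_inter_left _ (Finset.coe_subset.2 hP₁)
    · exact P.finite_toSet.subset Set.inter_subset_left
  have h6 : (T.card : ℝ) ≤ (((P : Set (ℝ × ℝ)) ∩ (L0 : Set (ℝ × ℝ))).ncard : ℝ) := by
    exact_mod_cast (hL1.trans hsub).trans (hmax L1 hL1d)
  exact hT.trans (mul_le_mul_of_nonneg_left h6 (by positivity))

/-- **Main theorem**, several lines at infinity. -/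
theorem rMain2 (hPairs : S_Pairs) (hSmall : S_Small) (hAP : S_AP) (hLine : S_Line)
    (hBack : S_Back) (hTwo : S_Two) (hNum : S_Num) (P : Finset (ℝ × ℝ))
    (F : Finset ((ℝ × ℝ × ℝ) × ℝ)) (α : ℝ) (hP : 2 ≤ P.card) (hF : F.Nonempty) (hα : 0 < α)
    (hlines : α * (P.card : ℝ) ^ 2 ≤ ((famLines P F).ncard : ℝ)) :
    ∃ L : AffineSubspace ℝ (ℝ × ℝ), Module.finrank ℝ L.direction = 1 ∧
      (P.card : ℝ) ^ ((α / (2 * F.card)) ^ 600) ≤
        (((P : Set (ℝ × ℝ)) ∩ (L : Set (ℝ × ℝ))).ncard : ℝ) := by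
  classical
  set Pf : ((ℝ × ℝ × ℝ) × ℝ) → Finset (ℝ × ℝ) := fun f =>
    P.filter fun p => aff f.1.1 f.1.2.1 f.1.2.2 p ≠ 0 with hPf
  have hcover : famLines P F =
      ⋃ f ∈ F, ratioLines (Pf f) {f.2} f.1.1 f.1.2.1 f.1.2.2 := by
    apply Set.Subset.antisymm
    · rintro L ⟨hd, f, hf, p, hp, q, hq, r, hr, hpL, hqL, hrL, h1, h2, h3, h4, h5, h6, h7⟩
      rw [Set.mem_iUnion₂]
      exact ⟨f, hf, hd, p, Finset.mem_filter.2 ⟨hp, h4⟩, q, Finset.mem_filter.2 ⟨hq, h5⟩, r,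
        Finset.mem_filter.2 ⟨hr, h6⟩, hpL, hqL, hrL, h1, h2, h3, f.2, Finset.mem_singleton_self _,
        h7⟩
    · intro L hL
      rw [Set.mem_iUnion₂] at hL
      obtain ⟨f, hf, hd, p, hp, q, hq, r, hr, hpL, hqL, hrL, h1, h2, h3, t, ht, h7⟩ := hL
      rw [Finset.mem_singleton] at ht
      subst ht
      exact ⟨hd, f, hf, p, (Finset.mem_filter.1 hp).1, q, (Finset.mem_filter.1 hq).1, r,
        (Finset.mem_filter.1 hr).1, hpL, hqL, hrL, h1, h2, h3, (Finset.mem_filter.1 hp).2,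
        (Finset.mem_filter.1 hq).2, (Finset.mem_filter.1 hr).2, h7⟩
  have hF0 : (0 : ℝ) < F.card := by exact_mod_cast hF.card_pos
  have hsum : α * (P.card : ℝ) ^ 2 ≤
      ∑ f ∈ F, ((ratioLines (Pf f) {f.2} f.1.1 f.1.2.1 f.1.2.2).ncard : ℝ) := by
    refine hlines.trans ?_
    rw [hcover]
    have h := F.set_ncard_biUnion_le fun f => ratioLines (Pf f) {f.2} f.1.1 f.1.2.1 f.1.2.2
    exact_mod_cast h
  have hsum' : ∑ _f ∈ F, α / F.card * (P.card : ℝ) ^ 2 ≤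
      ∑ f ∈ F, ((ratioLines (Pf f) {f.2} f.1.1 f.1.2.1 f.1.2.2).ncard : ℝ) := by
    rw [Finset.sum_const, nsmul_eq_mul]
    refine le_trans (le_of_eq ?_) hsum
    field_simp
  obtain ⟨f, _, hf⟩ := Finset.exists_le_of_sum_le hF hsum'
  have h := main2_one hPairs hSmall hAP hLine hBack hTwo hNum P (Pf f) f.1.1 f.1.2.1 f.1.2.2 f.2
    (α / F.card) hP (div_pos hα hF0) (Finset.filter_subset _ _)
    (fun p hp => (Finset.mem_filter.1 hp).2) hf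
  have e : α / (2 * F.card) = α / F.card / 2 := by
    rw [div_div, mul_comm]
  rw [e]
  exact h

end Pool.Agent.RR95
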