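import Pool.Agent.Lib.MP_95b053_co.Spec

set_option autoImplicit false

namespace Pool.Agent.RR95

private theorem k_le (u : ℝ) (hu : 2 ≤ u) : 8 * u ^ 20 ≤ u ^ 23 := by
  have h3 : (8 : ℝ) ≤ u ^ 3 := by
    calc (8 : ℝ) = 2 ^ 3 := by norm_num
      _ ≤ u ^ 3 := pow_le_pow_left₀ (by norm_num) hu 3
  calc 8 * u ^ 20 ≤ u ^ 3 * u ^ 20 := mul_le_mul_of_nonneg_right h3 (by positivity)
    _ = u ^ 23 := by rw [← pow_add]

private theorem rho_le (u : ℝ) (hu : 2 ≤ u) : 5408 * (8 * u ^ 20) ^ 24 + 1 ≤ u ^ 565 := by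
  have h0 : (0 : ℝ) ≤ 8 * u ^ 20 := by positivity
  have h1 : (8 * u ^ 20) ^ 24 ≤ u ^ 552 := by
    calc (8 * u ^ 20) ^ 24 ≤ (u ^ 23) ^ 24 := pow_le_pow_left₀ h0 (k_le u hu) 24
      _ = u ^ 552 := by rw [← pow_mul]
  have h2 : (1 : ℝ) ≤ u ^ 552 := one_le_pow₀ (by linarith)
  have h3 : (5409 : ℝ) ≤ u ^ 13 := by
    calc (5409 : ℝ) ≤ 2 ^ 13 := by norm_num
      _ ≤ u ^ 13 := pow_le_pow_left₀ (by norm_num) hu 13
  calc 5408 * (8 * u ^ 20) ^ 24 + 1 ≤ 5408 * u ^ 552 + u ^ 552 := by linarith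
    _ = 5409 * u ^ 552 := by ring
    _ ≤ u ^ 13 * u ^ 552 := mul_le_mul_of_nonneg_right h3 (by positivity)
    _ = u ^ 565 := by rw [← pow_add]

private theorem four_le (u : ℝ) (hu : 2 ≤ u) : 4 * (8 * u ^ 20) ^ 5 ≤ u ^ 117 := by
  have h0 : (0 : ℝ) ≤ 8 * u ^ 20 := by positivity
  have h1 : (8 * u ^ 20) ^ 5 ≤ u ^ 115 := by
    calc (8 * u ^ 20) ^ 5 ≤ (u ^ 23) ^ 5 := pow_le_pow_left₀ h0 (k_le u hu) 5
      _ = u ^ 115 := by rw [← pow_mul]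
  have h3 : (4 : ℝ) ≤ u ^ 2 := by nlinarith
  calc 4 * (8 * u ^ 20) ^ 5 ≤ u ^ 2 * u ^ 115 :=
        mul_le_mul h3 h1 (by positivity) (by positivity)
    _ = u ^ 117 := by rw [← pow_add]

private theorem expo_le (u r : ℝ) (hu : 2 ≤ u) (hr : r ≤ u ^ 565) (hr0 : 0 ≤ r) :
    u * (2 + 117 * r) + r ≤ u ^ 600 := by
  have h1 : u * r ≤ u ^ 566 := by
    calc u * r ≤ u * u ^ 565 := mul_le_mul_of_nonneg_left hr (by linarith)
      _ = u ^ 566 := by rw [← pow_succ']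
  have h2 : u ≤ u ^ 566 := le_self_pow₀ (by linarith) (by norm_num)
  have h3 : r ≤ u * r := by nlinarith
  have h4 : (120 : ℝ) ≤ u ^ 7 := by
    calc (120 : ℝ) ≤ 2 ^ 7 := by norm_num
      _ ≤ u ^ 7 := pow_le_pow_left₀ (by norm_num) hu 7
  calc u * (2 + 117 * r) + r ≤ 120 * u ^ 566 := by nlinarith
    _ ≤ u ^ 7 * u ^ 566 := mul_le_mul_of_nonneg_right h4 (by positivity)
    _ = u ^ 573 := by rw [← pow_add]
    _ ≤ u ^ 600 := pow_le_pow_right₀ (by linarith) (by norm_num)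

private theorem pow_step (u X n : ℝ) (ρ : ℕ) (hu : 2 ≤ u) (hX : 2 ≤ X)
    (hr : (ρ : ℝ) ≤ u ^ 565) (hn0 : 0 ≤ n) (hn : n ≤ u ^ (2 + 117 * ρ) * X ^ ρ) :
    n ^ ((u⁻¹) ^ 600) ≤ X := by
  have hX0 : (0 : ℝ) < X := by linarith
  have hX1 : (1 : ℝ) ≤ X := by linarith
  have hu0 : (0 : ℝ) < u := by linarith
  have h1 : u ≤ X ^ u := by
    have h2 : 1 + u * 1 ≤ (1 + 1 : ℝ) ^ u :=
      one_add_mul_self_le_rpow_one_add (by norm_num) (by linarith)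
    have h3 : (1 + 1 : ℝ) ^ u ≤ X ^ u := Real.rpow_le_rpow (by norm_num) (by linarith) hu0.le
    linarith
  have h2 : u ^ (2 + 117 * ρ) ≤ X ^ (u * ((2 + 117 * ρ : ℕ) : ℝ)) := by
    rw [Real.rpow_mul hX0.le, Real.rpow_natCast]
    exact pow_le_pow_left₀ hu0.le h1 _
  have h3 : n ≤ X ^ (u * ((2 + 117 * ρ : ℕ) : ℝ) + (ρ : ℝ)) := by
    rw [Real.rpow_add hX0, Real.rpow_natCast X ρ]
    exact hn.trans (mul_le_mul_of_nonneg_right h2 (by positivity))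
  have h4 : u * ((2 + 117 * ρ : ℕ) : ℝ) + (ρ : ℝ) ≤ u ^ 600 := by
    push_cast
    exact expo_le u ρ hu hr (by positivity)
  have h5 : n ≤ X ^ (u ^ 600) := h3.trans (Real.rpow_le_rpow_of_exponent_le hX1 h4)
  have h6 : (0 : ℝ) < u ^ 600 := by positivity
  calc n ^ ((u⁻¹) ^ 600) ≤ (X ^ (u ^ 600)) ^ ((u⁻¹) ^ 600) :=
        Real.rpow_le_rpow hn0 h5 (by positivity)
    _ = X := by
      rw [← Real.rpow_mul hX0.le, inv_pow, mul_inv_cancel₀ h6.ne', Real.rpow_one]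

private theorem claim_m (m K5 X : ℝ) (ρ : ℕ) (hρ : 1 ≤ ρ) (hK : 1 ≤ K5) (hX : 1 ≤ X)
    (h : ∀ L : ℕ, 1 ≤ L → ((4 * L : ℕ) : ℝ) ^ ρ ≤ m → (2 * L + 1 : ℝ) ≤ K5 * X) :
    m ≤ (4 * K5 * X) ^ ρ := by
  have hKX : 1 ≤ K5 * X := one_le_mul_of_one_le_of_one_le hK hX
  rcases lt_or_ge m ((4 : ℝ) ^ ρ) with hm | hm
  · refine hm.le.trans (pow_le_pow_left₀ (by norm_num) ?_ ρ)
    nlinarith
  · have hm0 : (0 : ℝ) ≤ m := le_trans (by positivity) hm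
    have hρ0 : (ρ : ℝ) ≠ 0 := by
      have : ρ ≠ 0 := by omega
      exact_mod_cast this
    obtain ⟨y, hy0, hy⟩ : ∃ y : ℝ, 0 ≤ y ∧ y ^ ρ = m := by
      refine ⟨m ^ ((ρ : ℝ)⁻¹), by positivity, ?_⟩
      exact Real.rpow_inv_natCast_pow hm0 (by omega)
    have hy4 : 4 ≤ y := by
      by_contra hlt
      push Not at hlt
      have := pow_lt_pow_left₀ hlt hy0 (by omega : ρ ≠ 0)
      linarith
    have hL1 : 1 ≤ ⌊y / 4⌋₊ := by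
      rw [Nat.one_le_floor_iff]
      linarith
    have hfl : (⌊y / 4⌋₊ : ℝ) ≤ y / 4 := Nat.floor_le (by linarith)
    have hfl2 : y / 4 < (⌊y / 4⌋₊ : ℝ) + 1 := Nat.lt_floor_add_one _
    have h4L : ((4 * ⌊y / 4⌋₊ : ℕ) : ℝ) ≤ y := by
      push_cast
      linarith
    have hpow : ((4 * ⌊y / 4⌋₊ : ℕ) : ℝ) ^ ρ ≤ m := by
      rw [← hy]
      exact pow_le_pow_left₀ (by positivity) h4L ρ
    have hh := h _ hL1 hpow
    rw [← hy]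
    refine pow_le_pow_left₀ hy0 ?_ ρ
    linarith

theorem rNum : S_Num := by
  intro n X γ hn hX hγ hγ1 h
  obtain ⟨u, hu⟩ : ∃ u : ℝ, u = 2 / γ := ⟨_, rfl⟩
  have hu2 : 2 ≤ u := by
    rw [hu, le_div_iff₀ hγ]
    linarith
  have hu0 : (0 : ℝ) < u := by linarith
  have hγu : γ = 2 * u⁻¹ := by
    rw [hu]
    field_simp
  have hK : (2 : ℝ) ^ 23 / γ ^ 20 = 8 * u ^ 20 := by
    rw [hγu, mul_pow, inv_pow]
    field_simp
    norm_num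
  have hsq : γ ^ 2 / 4 * n = n / u ^ 2 := by
    rw [hγu, mul_pow, inv_pow]
    field_simp
    norm_num
  have hexp : (γ / 2) ^ 600 = (u⁻¹) ^ 600 := by
    rw [hγu, mul_div_cancel_left₀ _ (by norm_num : (2 : ℝ) ≠ 0)]
  rw [hexp]
  rw [hK, hsq] at h
  have hK0 : (0 : ℝ) ≤ 5408 * (8 * u ^ 20) ^ 24 := by positivity
  obtain ⟨ρ, hρdef⟩ : ∃ ρ : ℕ, ρ = ⌈5408 * (8 * u ^ 20) ^ 24⌉₊ := ⟨_, rfl⟩
  have hρ1 : 5408 * (8 * u ^ 20) ^ 24 ≤ (ρ : ℝ) := by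
    rw [hρdef]
    exact Nat.le_ceil _
  have hρ2 : (ρ : ℝ) ≤ u ^ 565 := by
    have h1 : (ρ : ℝ) < 5408 * (8 * u ^ 20) ^ 24 + 1 := by
      rw [hρdef]
      exact Nat.ceil_lt_add_one hK0
    exact h1.le.trans (rho_le u hu2)
  have hk20 : (1 : ℝ) ≤ 8 * u ^ 20 := by
    have : (1 : ℝ) ≤ u ^ 20 := one_le_pow₀ (by linarith)
    linarith
  have hρpos : 1 ≤ ρ := by
    have h1 : (1 : ℝ) ≤ (8 * u ^ 20) ^ 24 := one_le_pow₀ hk20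
    have h2 : (1 : ℝ) ≤ (ρ : ℝ) := by linarith
    exact_mod_cast h2
  have hK5 : (1 : ℝ) ≤ (8 * u ^ 20) ^ 5 := one_le_pow₀ hk20
  have hm := claim_m (n / u ^ 2) ((8 * u ^ 20) ^ 5) X ρ hρpos hK5 (by linarith)
    (fun L hL hle => h L ρ hL hρ1 hle)
  have hm2 : n / u ^ 2 ≤ (u ^ 117 * X) ^ ρ := by
    refine hm.trans (pow_le_pow_left₀ (by positivity) ?_ ρ)
    exact mul_le_mul_of_nonneg_right (four_le u hu2) (by linarith)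
  refine pow_step u X n ρ hu2 hX hρ2 (by linarith) ?_
  rw [div_le_iff₀ (by positivity)] at hm2
  refine hm2.trans (le_of_eq ?_)
  rw [mul_pow, ← pow_mul, pow_add]
  ring

end Pool.Agent.RR95
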