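import Pool.Agent.Lib.MP_95b053_co.Spec

set_option autoImplicit false

namespace Pool.Agent.RR95

open Finset
open scoped Pointwise

private noncomputable def back (x : ℝ × ℝ × ℝ) : ℝ × ℝ := (x.1 / x.2.2, x.2.1 / x.2.2)

private theorem back_lift (a b d : ℝ) (p : ℝ × ℝ) (h : aff a b d p ≠ 0) : back (lift a b d p) = p := by
  unfold back lift
  have h' : (aff a b d p)⁻¹ ≠ 0 := inv_ne_zero h
  refine Prod.ext ?_ ?_
  · show (aff a b d p)⁻¹ * p.1 / (aff a b d p)⁻¹ = p.1
    field_simp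
  · show (aff a b d p)⁻¹ * p.2 / (aff a b d p)⁻¹ = p.2
    field_simp

private theorem ratio_lift (a b d : ℝ) (p q r : ℝ × ℝ) (t : ℝ) (h : Ratio a b d p q r t) :
    (1 - t) • lift a b d p + t • lift a b d q = lift a b d r := by
  obtain ⟨h1, h2⟩ := h
  have h11 := congrArg Prod.fst h1
  have h12 := congrArg Prod.snd h1
  simp only [Prod.smul_fst, Prod.smul_snd, Prod.fst_add, Prod.snd_add, smul_eq_mul] at h11 h12
  unfold lift
  refine Prod.ext ?_ (Prod.ext ?_ ?_)
  · show (1 - t) * ((aff a b d p)⁻¹ * p.1) + t * ((aff a b d q)⁻¹ * q.1) = (aff a b d r)⁻¹ * r.1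
    rw [h11]
  · show (1 - t) * ((aff a b d p)⁻¹ * p.2) + t * ((aff a b d q)⁻¹ * q.2) = (aff a b d r)⁻¹ * r.2
    rw [h12]
  · show (1 - t) * (aff a b d p)⁻¹ + t * (aff a b d q)⁻¹ = (aff a b d r)⁻¹
    rw [h2]

private theorem line_eq (L : AffineSubspace ℝ (ℝ × ℝ)) (h : Module.finrank ℝ L.direction = 1)
    (p q : ℝ × ℝ) (hp : p ∈ L) (hq : q ∈ L) (hne : p ≠ q) : affineSpan ℝ {p, q} = L := by
  have hle : affineSpan ℝ ({p, q} : Set (ℝ × ℝ)) ≤ L := by
    rw [affineSpan_le]
    rintro x (rfl | rfl)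
    · exact hp
    · exact hq
  have hdir : (affineSpan ℝ ({p, q} : Set (ℝ × ℝ))).direction = L.direction := by
    refine Submodule.eq_of_le_of_finrank_eq (AffineSubspace.direction_le hle) ?_
    rw [h, direction_affineSpan, vectorSpan_pair, finrank_span_singleton]
    rw [vsub_eq_sub]
    exact sub_ne_zero.2 hne
  exact AffineSubspace.eq_of_direction_eq_of_nonempty_of_le hdir
    ⟨p, left_mem_affineSpan_pair ℝ p q⟩ hle

theorem rPairs : S_Pairs := by
  classical
  intro P Λ a b d α hP hα haff hlines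
  refine ⟨P.image (lift a b d), rfl, ?_, ?_⟩
  · refine Finset.card_image_of_injOn ?_
    intro p hp q hq h
    rw [← back_lift a b d p (haff p hp), ← back_lift a b d q (haff q hq), h]
  have hcardP : (P.image (lift a b d)).card = P.card := by
    refine Finset.card_image_of_injOn ?_
    intro p hp q hq h
    rw [← back_lift a b d p (haff p hp), ← back_lift a b d q (haff q hq), h]
  set P' := P.image (lift a b d) with hP'
  let C : ℝ → Finset ((ℝ × ℝ × ℝ) × (ℝ × ℝ × ℝ)) := fun t =>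
    (P' ×ˢ P').filter fun z => (1 - t) • z.1 + t • z.2 ∈ P'
  let Λ' := Λ.filter (fun t => t ≠ 0 ∧ t ≠ 1)
  let g : (Σ _ : ℝ, (ℝ × ℝ × ℝ) × (ℝ × ℝ × ℝ)) → AffineSubspace ℝ (ℝ × ℝ) := fun z =>
    affineSpan ℝ {back z.2.1, back z.2.2}
  have hsub : ratioLines P Λ a b d ⊆ (((Λ'.sigma C).image g : Finset (AffineSubspace ℝ (ℝ × ℝ))) :
      Set (AffineSubspace ℝ (ℝ × ℝ))) := by
    rintro L ⟨hL, p, hp, q, hq, r, hr, hpL, hqL, hrL, hpq, hpr, hqr, t, ht, hrat⟩
    have hlift := ratio_lift a b d p q r t hrat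
    rw [Finset.mem_coe, Finset.mem_image]
    refine ⟨⟨t, lift a b d p, lift a b d q⟩, ?_, ?_⟩
    · rw [Finset.mem_sigma]
      refine ⟨Finset.mem_filter.2 ⟨ht, ?_, ?_⟩, Finset.mem_filter.2 ⟨Finset.mem_product.2 ⟨?_, ?_⟩, ?_⟩⟩
      · rintro rfl
        apply hpr
        rw [← back_lift a b d p (haff p hp), ← back_lift a b d r (haff r hr), ← hlift]
        simp
      · rintro rfl
        apply hqr
        rw [← back_lift a b d q (haff q hq), ← back_lift a b d r (haff r hr), ← hlift]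
        simp
      · exact Finset.mem_image_of_mem _ hp
      · exact Finset.mem_image_of_mem _ hq
      · show (1 - t) • lift a b d p + t • lift a b d q ∈ P'
        rw [hlift]
        exact Finset.mem_image_of_mem _ hr
    · show affineSpan ℝ {back (lift a b d p), back (lift a b d q)} = L
      rw [back_lift a b d p (haff p hp), back_lift a b d q (haff q hq)]
      exact line_eq L hL p q hpL hqL hpq
  have hcard : (ratioLines P Λ a b d).ncard ≤ ∑ t ∈ Λ', (C t).card := by
    calc (ratioLines P Λ a b d).ncard ≤ ((((Λ'.sigma C).image g : Finset (AffineSubspace ℝ (ℝ × ℝ))) :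
          Set (AffineSubspace ℝ (ℝ × ℝ)))).ncard := Set.ncard_le_ncard hsub (Finset.finite_toSet _)
      _ = ((Λ'.sigma C).image g).card := Set.ncard_coe_finset _
      _ ≤ (Λ'.sigma C).card := Finset.card_image_le
      _ = ∑ t ∈ Λ', (C t).card := Finset.card_sigma _ _
  have hcard' : ((ratioLines P Λ a b d).ncard : ℝ) ≤ ∑ t ∈ Λ', ((C t).card : ℝ) := by
    exact_mod_cast hcard
  have hn : (0 : ℝ) < (P.card : ℝ) := by exact_mod_cast hP.card_pos
  have hpos : (0 : ℝ) < α * (P.card : ℝ) ^ 2 := by positivity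
  by_contra hcon
  push Not at hcon
  have hlt : ∀ t ∈ Λ', ((C t).card : ℝ) < α / Λ.card * (P'.card : ℝ) ^ 2 := by
    intro t ht
    have ht' := Finset.mem_filter.1 ht
    exact hcon t ht'.1 ht'.2.1 ht'.2.2
  rcases Finset.eq_empty_or_nonempty Λ' with h0 | hne
  · rw [h0, Finset.sum_empty] at hcard'
    linarith
  · have hs := Finset.sum_lt_sum_of_nonempty hne hlt
    rw [Finset.sum_const, nsmul_eq_mul, hcardP] at hs
    have hle : (Λ'.card : ℝ) ≤ (Λ.card : ℝ) := by
      exact_mod_cast Finset.card_le_card (Finset.filter_subset _ _)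
    have hΛ : (0 : ℝ) < (Λ.card : ℝ) := lt_of_lt_of_le (by exact_mod_cast hne.card_pos) hle
    have h2 : (Λ'.card : ℝ) * (α / Λ.card * (P.card : ℝ) ^ 2) ≤ α * (P.card : ℝ) ^ 2 := by
      calc (Λ'.card : ℝ) * (α / Λ.card * (P.card : ℝ) ^ 2)
          ≤ (Λ.card : ℝ) * (α / Λ.card * (P.card : ℝ) ^ 2) := by
            exact mul_le_mul_of_nonneg_right hle (by positivity)
        _ = α * (P.card : ℝ) ^ 2 := by field_simp
    linarith

end Pool.Agent.RR95
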