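import Pool.Agent.Lib.MP_95b053_co.Spec

/-!
# MP_95b053_co: popular differences
-/

set_option autoImplicit false

namespace Pool.Agent.RR95

open Finset
open scoped Pointwise

/-- number of representations as a difference -/
private noncomputable def popR (P : Finset (ℝ × ℝ × ℝ)) (d : ℝ × ℝ × ℝ) : ℕ := by
  classical
  exact ((P ×ˢ P).filter (fun w => w.1 - w.2 = d)).card

private theorem popR_le (P : Finset (ℝ × ℝ × ℝ)) (d : ℝ × ℝ × ℝ) : popR P d ≤ P.card := by
  classical
  unfold popR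
  refine Finset.card_le_card_of_injOn Prod.fst ?_ ?_
  · intro w hw
    rw [Finset.mem_coe, mem_filter, mem_product] at hw
    exact hw.1.1
  · intro w hw w' hw' h
    rw [Finset.mem_coe, mem_filter] at hw hw'
    have h1 := hw.2
    have h2 := hw'.2
    have h3 : w.2 = w'.2 := by
      have e1 : w.2 = w.1 - d := by rw [← h1]; abel
      have e2 : w'.2 = w'.1 - d := by rw [← h2]; abel
      rw [e1, e2, h]
    exact Prod.ext h h3

private theorem popR_neg (P : Finset (ℝ × ℝ × ℝ)) (d : ℝ × ℝ × ℝ) : popR P (-d) = popR P d := by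
  classical
  unfold popR
  refine Finset.card_bij (fun w _ => (w.2, w.1)) ?_ ?_ ?_
  · intro w hw
    rw [mem_filter, mem_product] at hw ⊢
    refine ⟨⟨hw.1.2, hw.1.1⟩, ?_⟩
    have := hw.2
    change w.2 - w.1 = d
    rw [← neg_sub, this, neg_neg]
  · intro w _ w' _ h
    simp only [Prod.mk.injEq] at h
    exact Prod.ext h.2 h.1
  · intro w hw
    rw [mem_filter, mem_product] at hw
    refine ⟨(w.2, w.1), ?_, rfl⟩
    rw [mem_filter, mem_product]
    refine ⟨⟨hw.1.2, hw.1.1⟩, ?_⟩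
    change w.2 - w.1 = -d
    rw [← hw.2]
    abel

theorem rPop : S_Pop := by
  intro P t α hP ht0 ht1 hα hyp
  classical
  set n : ℝ := (P.card : ℝ) with hn
  have hn0 : 0 < n := by
    rw [hn]
    exact_mod_cast hP.card_pos
  set F := (P ×ˢ P).filter (fun z : (ℝ × ℝ × ℝ) × (ℝ × ℝ × ℝ) => (1 - t) • z.1 + t • z.2 ∈ P) with hF
  set ν : ℝ × ℝ × ℝ → ℕ := fun x => (F.filter (fun z => (1 - t) • z.1 + t • z.2 = x)).card with hν
  have hsum : F.card = ∑ x ∈ P, ν x := by
    refine Finset.card_eq_sum_card_fiberwise (f := fun z : (ℝ × ℝ × ℝ) × (ℝ × ℝ × ℝ) =>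
      (1 - t) • z.1 + t • z.2) ?_
    intro z hz
    rw [Finset.mem_coe, hF, mem_filter] at hz
    exact hz.2
  -- Cauchy-Schwarz
  have hCS : α ^ 2 * n ^ 3 ≤ ∑ x ∈ P, (ν x : ℝ) ^ 2 := by
    have h1 := sq_sum_le_card_mul_sum_sq (s := P) (f := fun x => (ν x : ℝ))
    have h2 : (F.card : ℝ) = ∑ x ∈ P, (ν x : ℝ) := by
      rw [hsum]
      push_cast
      rfl
    rw [← h2] at h1
    have h3 : (α * n ^ 2) ^ 2 ≤ (F.card : ℝ) ^ 2 := pow_le_pow_left₀ (by positivity) hyp 2
    have h4 : n * (α ^ 2 * n ^ 3) ≤ n * ∑ x ∈ P, (ν x : ℝ) ^ 2 := by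
      calc n * (α ^ 2 * n ^ 3) = (α * n ^ 2) ^ 2 := by ring
        _ ≤ _ := h3
        _ ≤ _ := h1
    exact le_of_mul_le_mul_left h4 hn0
  -- the quadruples
  set μ : ℝ := (1 - t) / t with hμ
  have hμ0 : μ ≠ 0 := div_ne_zero (sub_ne_zero.mpr (Ne.symm ht1)) ht0
  set Q := ((P ×ˢ P) ×ˢ (P ×ˢ P)).filter
    (fun q : ((ℝ × ℝ × ℝ) × (ℝ × ℝ × ℝ)) × ((ℝ × ℝ × ℝ) × (ℝ × ℝ × ℝ)) =>
      q.2.1 - q.2.2 = μ • (q.1.1 - q.1.2)) with hQ
  have hQ1 : ∑ x ∈ P, ν x ^ 2 ≤ Q.card := by
    have h1 : ∀ x ∈ P, ν x ^ 2 = (((F.filter (fun z => (1 - t) • z.1 + t • z.2 = x)) ×ˢ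
        (F.filter (fun z => (1 - t) • z.1 + t • z.2 = x)))).card := by
      intro x _
      rw [Finset.card_product, hν, sq]
    rw [Finset.sum_congr rfl h1, ← Finset.card_biUnion]
    · refine Finset.card_le_card_of_injOn (fun q => ((q.1.1, q.2.1), (q.2.2, q.1.2))) ?_ ?_
      · intro q hq
        rw [Finset.mem_coe, mem_biUnion] at hq
        obtain ⟨x, hx, hq⟩ := hq
        rw [mem_product, mem_filter, mem_filter, hF, mem_filter, mem_filter, mem_product,
          mem_product] at hq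
        obtain ⟨⟨⟨⟨h11, h12⟩, _⟩, h1x⟩, ⟨⟨h21, h22⟩, _⟩, h2x⟩ := hq
        rw [Finset.mem_coe, hQ, mem_filter, mem_product, mem_product, mem_product]
        refine ⟨⟨⟨h11, h21⟩, ⟨h22, h12⟩⟩, ?_⟩
        change q.2.2 - q.1.2 = μ • (q.1.1 - q.2.1)
        have h3 : (1 - t) • q.1.1 + t • q.1.2 = (1 - t) • q.2.1 + t • q.2.2 := h1x.trans h2x.symm
        have h4 : t • (q.2.2 - q.1.2) = (1 - t) • (q.1.1 - q.2.1) := by
          rw [smul_sub, smul_sub]
          rw [sub_eq_sub_iff_add_eq_add, add_comm, ← h3, add_comm]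
        have h5 : q.2.2 - q.1.2 = t⁻¹ • (t • (q.2.2 - q.1.2)) := by
          rw [smul_smul, inv_mul_cancel₀ ht0, one_smul]
        rw [h5, h4, smul_smul, hμ]
        congr 1
        field_simp
      · intro q _ q' _ h
        simp only [Prod.mk.injEq] at h
        exact Prod.ext (Prod.ext h.1.1 h.2.2) (Prod.ext h.1.2 h.2.1)
    · intro x _ y _ hxy
      rw [Function.onFun, Finset.disjoint_left]
      intro q hq hq'
      rw [mem_product, mem_filter] at hq hq'
      exact hxy (hq.1.2.symm.trans hq'.1.2)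
  have hQ2 : α ^ 2 * n ^ 3 ≤ Q.card := by
    refine hCS.trans ?_
    exact_mod_cast hQ1
  -- the popular differences
  set D := (P - P).filter (fun d => α ^ 2 / 2 * n ≤ (popR P d : ℝ)) with hD
  have hDmem : ∀ w ∈ P ×ˢ P, (w.1 - w.2 ∈ D ↔ α ^ 2 / 2 * n ≤ (popR P (w.1 - w.2) : ℝ)) := by
    intro w hw
    rw [mem_product] at hw
    rw [hD, mem_filter]
    exact ⟨fun h => h.2, fun h => ⟨Finset.sub_mem_sub hw.1 hw.2, h⟩⟩
  have hDneg : ∀ g ∈ D, -g ∈ D := by
    intro g hg
    rw [hD, mem_filter] at hg ⊢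
    refine ⟨?_, ?_⟩
    · obtain ⟨a, ha, b, hb, rfl⟩ := Finset.mem_sub.mp hg.1
      rw [neg_sub]
      exact Finset.sub_mem_sub hb ha
    · rw [popR_neg]
      exact hg.2
  set W := (P ×ˢ P).filter (fun w : (ℝ × ℝ × ℝ) × (ℝ × ℝ × ℝ) => w.1 - w.2 ∈ D) with hW
  have hsplit : Q.card = (Q.filter (fun q => q.1.1 - q.1.2 ∈ D)).card +
      (Q.filter (fun q => ¬ (q.1.1 - q.1.2 ∈ D))).card :=
    (Finset.card_filter_add_card_filter_not _).symm
  have hA : (Q.filter (fun q => q.1.1 - q.1.2 ∈ D)).card ≤ W.card * P.card := by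
    have h1 : (Q.filter (fun q => q.1.1 - q.1.2 ∈ D)).card =
        ∑ w ∈ W, ((Q.filter (fun q => q.1.1 - q.1.2 ∈ D)).filter (fun q => q.1 = w)).card := by
      refine Finset.card_eq_sum_card_fiberwise (f := Prod.fst) ?_
      intro q hq
      rw [Finset.mem_coe, mem_filter, hQ, mem_filter, mem_product] at hq
      rw [Finset.mem_coe, hW, mem_filter]
      exact ⟨hq.1.1.1, hq.2⟩
    rw [h1]
    refine (Finset.sum_le_card_nsmul W _ P.card ?_).trans (le_of_eq (by rw [smul_eq_mul]))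
    intro w _
    refine le_trans ?_ (popR_le P (μ • (w.1 - w.2)))
    unfold popR
    refine Finset.card_le_card_of_injOn Prod.snd ?_ ?_
    · intro q hq
      rw [Finset.mem_coe, mem_filter, mem_filter, hQ, mem_filter, mem_product] at hq
      rw [Finset.mem_coe, mem_filter]
      obtain ⟨⟨⟨⟨_, h2⟩, h3⟩, _⟩, h5⟩ := hq
      refine ⟨h2, ?_⟩
      rw [h3, h5]
    · intro q hq q' hq' h
      rw [Finset.mem_coe, mem_filter] at hq hq'
      exact Prod.ext (hq.2.trans hq'.2.symm) h
  have hB : ((Q.filter (fun q => ¬ (q.1.1 - q.1.2 ∈ D))).card : ℝ) ≤ n ^ 2 * (α ^ 2 / 2 * n) := by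
    have h1 : (Q.filter (fun q => ¬ (q.1.1 - q.1.2 ∈ D))).card =
        ∑ w ∈ P ×ˢ P,
          ((Q.filter (fun q => ¬ (q.1.1 - q.1.2 ∈ D))).filter (fun q => q.2 = w)).card := by
      refine Finset.card_eq_sum_card_fiberwise (f := Prod.snd) ?_
      intro q hq
      rw [Finset.mem_coe, mem_filter, hQ, mem_filter, mem_product] at hq
      exact hq.1.1.2
    rw [h1]
    push_cast
    have h2 : ∀ w ∈ P ×ˢ P,
        (((Q.filter (fun q => ¬ (q.1.1 - q.1.2 ∈ D))).filter (fun q => q.2 = w)).card : ℝ) ≤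
          α ^ 2 / 2 * n := by
      intro w _
      by_cases hem : ((Q.filter (fun q => ¬ (q.1.1 - q.1.2 ∈ D))).filter (fun q => q.2 = w)).Nonempty
      · obtain ⟨q0, hq0⟩ := hem
        rw [mem_filter, mem_filter, hQ, mem_filter, mem_product] at hq0
        obtain ⟨⟨⟨⟨g1, _⟩, g2⟩, g3⟩, g4⟩ := hq0
        have g5 : (popR P (q0.1.1 - q0.1.2) : ℝ) < α ^ 2 / 2 * n := by
          rw [hDmem q0.1 g1, not_le] at g3
          exact g3
        refine le_trans ?_ g5.le
        have g6 : ((Q.filter (fun q => ¬ (q.1.1 - q.1.2 ∈ D))).filter (fun q => q.2 = w)).card ≤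
            popR P (q0.1.1 - q0.1.2) := by
          unfold popR
          refine Finset.card_le_card_of_injOn Prod.fst ?_ ?_
          · intro q hq
            rw [Finset.mem_coe, mem_filter, mem_filter, hQ, mem_filter, mem_product] at hq
            obtain ⟨⟨⟨⟨k1, _⟩, k2⟩, _⟩, k4⟩ := hq
            rw [Finset.mem_coe, mem_filter]
            refine ⟨k1, ?_⟩
            have e1 : μ • (q.1.1 - q.1.2) = μ • (q0.1.1 - q0.1.2) := by
              rw [← k2, ← g2, k4, g4]
            exact smul_right_injective _ hμ0 e1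
          · intro q hq q' hq' h
            rw [Finset.mem_coe, mem_filter] at hq hq'
            exact Prod.ext h (hq.2.trans hq'.2.symm)
        exact_mod_cast g6
      · rw [Finset.not_nonempty_iff_eq_empty] at hem
        rw [hem, Finset.card_empty]
        push_cast
        positivity
    refine (Finset.sum_le_sum h2).trans (le_of_eq ?_)
    rw [Finset.sum_const, Finset.card_product, nsmul_eq_mul]
    push_cast
    rw [← hn]
    ring
  have hWc : α ^ 2 / 2 * n ^ 2 ≤ W.card := by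
    have h1 : (Q.card : ℝ) ≤ W.card * n + n ^ 2 * (α ^ 2 / 2 * n) := by
      rw [hsplit]
      push_cast
      have hA' : ((Q.filter (fun q => q.1.1 - q.1.2 ∈ D)).card : ℝ) ≤ W.card * n := by
        rw [hn]
        exact_mod_cast hA
      linarith
    have h2 : (α ^ 2 / 2 * n ^ 2) * n ≤ W.card * n := by nlinarith
    exact le_of_mul_le_mul_right h2 hn0
  refine ⟨D, hDneg, ?_, ?_⟩
  · -- size of D
    have h1 : (D.card : ℝ) * (α ^ 2 / 2 * n) ≤ n ^ 2 := by
      have h2 : ∑ d ∈ D, popR P d ≤ (P ×ˢ P).card := by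
        unfold popR
        rw [← Finset.card_biUnion]
        · apply Finset.card_le_card
          intro w hw
          rw [mem_biUnion] at hw
          obtain ⟨d, _, hw⟩ := hw
          exact (mem_filter.mp hw).1
        · intro x _ y _ hxy
          rw [Function.onFun, Finset.disjoint_left]
          intro q hq hq'
          rw [mem_filter] at hq hq'
          exact hxy (hq.2.symm.trans hq'.2)
      have h3 : (D.card : ℝ) * (α ^ 2 / 2 * n) ≤ ∑ d ∈ D, (popR P d : ℝ) := by
        rw [← nsmul_eq_mul]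
        refine Finset.card_nsmul_le_sum D _ _ ?_
        intro d hd
        rw [hD, mem_filter] at hd
        exact hd.2
      refine h3.trans ?_
      have h4 : ((∑ d ∈ D, popR P d : ℕ) : ℝ) ≤ ((P ×ˢ P).card : ℝ) := by exact_mod_cast h2
      rw [Finset.card_product] at h4
      push_cast at h4
      rw [← hn] at h4
      linarith
    have h5 : (D.card * α ^ 2) * n ≤ (2 * n) * n := by nlinarith
    exact le_of_mul_le_mul_right h5 hn0
  · refine hWc.trans (le_of_eq ?_)
    congr 1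
    congr 1
    ext w
    have e : -w.1 + w.2 = -(w.1 - w.2) := by abel
    constructor
    · intro h
      have h1 := (Finset.mem_filter.mp h).1
      have h2 := (Finset.mem_filter.mp h).2
      refine Finset.mem_filter.mpr ⟨h1, ?_⟩
      rw [e]
      exact hDneg _ h2
    · intro h
      have h1 := (Finset.mem_filter.mp h).1
      have h2 := (Finset.mem_filter.mp h).2
      refine Finset.mem_filter.mpr ⟨h1, ?_⟩
      rw [e] at h2
      have := hDneg _ h2
      rwa [neg_neg] at this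

end Pool.Agent.RR95
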