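import Mathlib

/-!
# MP_95b053_co: many lines with a bounded set of ratios force many collinear points (statements)

THEOREM.  Let `P` be a set of `n ≥ 2` points of the plane, `0 < α ≤ 1`, `Λ` a nonempty finite set of real
numbers, `φ(x,y) = a x + b y + d` an affine function without zeros on `P`.  If at least `α n²` lines contain
three different points `p, q, r` of `P` with `Ratio a b d p q r t` for some `t ∈ Λ` (for `φ = 1`: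
`r = (1-t) p + t q`), then some line contains at least `n ^ ((α / (2 |Λ|)) ^ 600)` points of `P`.

Every statement `S_Xxx` is a `Prop`, proved in its own file (`theorem rXxx`), with the statements it uses as
hypotheses.  The complete proofs are in the docstrings.
-/

set_option autoImplicit false

namespace Pool.Agent.RR95

open Finset
open scoped Pointwise

/-- value at `p` of the affine function `(x, y) ↦ a x + b y + d` -/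
def aff (a b d : ℝ) (p : ℝ × ℝ) : ℝ := a * p.1 + b * p.2 + d

/-- After the projective map which sends the line `aff a b d = 0` to infinity, the point `r` becomes
`(1 - t)` times `p` plus `t` times `q`.  (For `a = b = 0`, `d = 1` this is `r = (1 - t) p + t q`.) -/
def Ratio (a b d : ℝ) (p q r : ℝ × ℝ) (t : ℝ) : Prop :=
  (aff a b d r)⁻¹ • r = (1 - t) • (aff a b d p)⁻¹ • p + t • (aff a b d q)⁻¹ • q ∧
    (aff a b d r)⁻¹ = (1 - t) * (aff a b d p)⁻¹ + t * (aff a b d q)⁻¹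

/-- the lines which contain three different points of `P` with ratio in `Λ` -/
def ratioLines (P : Finset (ℝ × ℝ)) (Λ : Finset ℝ) (a b d : ℝ) : Set (AffineSubspace ℝ (ℝ × ℝ)) :=
  {L | Module.finrank ℝ L.direction = 1 ∧ ∃ p ∈ P, ∃ q ∈ P, ∃ r ∈ P, p ∈ L ∧ q ∈ L ∧ r ∈ L ∧
    p ≠ q ∧ p ≠ r ∧ q ≠ r ∧ ∃ t ∈ Λ, Ratio a b d p q r t}

/-- the lift of the point `p` to the plane `φ = 1` of `ℝ³` -/
noncomputable def lift (a b d : ℝ) (p : ℝ × ℝ) : ℝ × ℝ × ℝ :=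
  ((aff a b d p)⁻¹ * p.1, (aff a b d p)⁻¹ * p.2, (aff a b d p)⁻¹)

/-! ## Part A: from many triples to small doubling -/

/-- **Pop.**  Popular differences.  (All cardinalities of subsets of `P × P`.)

Proof.  `n = |P|`.  `ρ(d) = #{(p,p') ∈ P² : p - p' = d}`, so `ρ(-d) = ρ(d)`, `ρ ≤ n`,
`∑_{d ∈ P-P} ρ(d) = n²`.  For `x ∈ P` let `N_x = #{(p,q) ∈ P² : (1-t)p + tq = x}`; `∑_{x ∈ P} N_x ≥ α n²`, so by
Cauchy-Schwarz (`sq_sum_le_card_mul_sum_sq`) `∑_{x ∈ P} N_x² ≥ α² n³`.  The left side counts (some of the)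
quadruples with `(1-t)p + tq = (1-t)p' + tq'`, i.e. `q' - q = μ (p - p')`, `μ = (1-t)/t ≠ 0`; so
`α² n³ ≤ ∑_{d ∈ P-P} ρ(d) ρ(μ d)`.  Let `D = {d ∈ P-P : ρ(d) ≥ (α²/2) n}`.  As `d ↦ μ d` is injective,
`∑_{d ∉ D} ρ(d) ρ(μ d) ≤ (α²/2) n ∑_d ρ(μ d) ≤ (α²/2) n³`.  Hence
`(α²/2) n³ ≤ ∑_{d ∈ D} ρ(d) ρ(μ d) ≤ n ∑_{d ∈ D} ρ(d)`, which is the last assertion
(`∑_{d ∈ D} ρ(d)` is the number of pairs with difference in `D`, symmetric in the two coordinates).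
`|D| (α²/2) n ≤ ∑ ρ(d) ≤ n²` gives `|D| α² ≤ 2 n`. -/
def S_Pop : Prop := ∀ (P : Finset (ℝ × ℝ × ℝ)) (t α : ℝ), P.Nonempty → t ≠ 0 → t ≠ 1 → 0 < α →
  α * (P.card : ℝ) ^ 2 ≤
    (((P ×ˢ P).filter fun z => (1 - t) • z.1 + t • z.2 ∈ P).card : ℝ) →
  ∃ D : Finset (ℝ × ℝ × ℝ), (∀ g ∈ D, -g ∈ D) ∧ (D.card : ℝ) * α ^ 2 ≤ 2 * P.card ∧
    α ^ 2 / 2 * (P.card : ℝ) ^ 2 ≤ (((P ×ˢ P).filter fun z => -z.1 + z.2 ∈ D).card : ℝ)

/-- **Small** (from `Pop`).  Balog-Szemerédi-Gowers.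

Proof.  Apply `Pool.Agent.Lib.MP_8dbdcc_co.bsg` (file `Pool.Agent.Lib.MP_8dbdcc_co.Bsg`) in the group
`G = Multiplicative (ℝ × ℝ × ℝ)` (images of `P`, `D` under `Multiplicative.ofAdd`; or state an additive copy
with `to_additive`-style transfer) with `Y = P`, `D` from `Pop` and its `α` equal to `α²/2`: there is `V ⊆ P` with
`(α²/4) |P| ≤ |V|` and `|V - V| (α²/2)^5 |P|³ ≤ 4096 |D|⁴ ≤ 4096 · 16 |P|⁴ / α⁸`.  So
`|V - V| ≤ 2^21 α^(-18) |P| ≤ 2^23 α^(-20) |V|`.  (`V⁻¹ * V` is `-V + V`, which has the cardinality of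
`V - V`: they are equal as sets up to commutativity.) -/
def S_Small : Prop := ∀ (P : Finset (ℝ × ℝ × ℝ)) (t α : ℝ), P.Nonempty → t ≠ 0 → t ≠ 1 → 0 < α →
  α * (P.card : ℝ) ^ 2 ≤
    (((P ×ˢ P).filter fun z => (1 - t) • z.1 + t • z.2 ∈ P).card : ℝ) →
  ∃ V ⊆ P, α ^ 2 / 4 * P.card ≤ V.card ∧ ((V - V).card : ℝ) * α ^ 20 ≤ 2 ^ 23 * V.card

/-! ## Part B: small doubling gives a long arithmetic progression in `2V - 2V` -/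

/-- **Fun.**  A linear functional which does not vanish on finitely many given nonzero vectors.

Proof.  `f_s (x,y,z) = x + s y + s² z`.  For `v ≠ 0` there are at most two `s` with `f_s v = 0` (roots of a
nonzero polynomial of degree `≤ 2`), so the bad `s` form a finite set and `ℝ` is infinite.  (Or: Mathlib's
`Module.Dual.exists_forall_mem_ne_zero_of_forall_exists`.) -/
def S_Fun : Prop := ∀ S : Finset (ℝ × ℝ × ℝ), ∃ f : (ℝ × ℝ × ℝ) →ₗ[ℝ] ℝ, ∀ y ∈ S, y ≠ 0 → f y ≠ 0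

/-- **Circ.**  A dilation which moves finitely many nonzero numbers away from the integers.

Proof.  `S` empty: trivial.  Let `m > 0` be the minimum of `|y|`, `y ∈ S`, and `T = 4/m`.  For `y ∈ S` the
set `B_y = {s ∈ [0,T] : |s y - k| < η for some k ∈ ℤ}` is covered by the intervals
`(k/|y| - η/|y|, k/|y| + η/|y|)`, `0 ≤ k ≤ T|y| + 1` (replace `y` by `|y|`; `η ≤ 1/4`), at most `T|y| + 2` of
them, so `vol B_y ≤ 2ηT + 4η/|y| ≤ 2ηT + 4η/m` (`Real.volume_Ioo`, `MeasureTheory.measure_biUnion_finset_le`).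
The sum over `S` is at most `T/2 + 1/m < T`, so some `s ∈ [0,T]` is in no `B_y`. -/
def S_Circ : Prop := ∀ (S : Finset ℝ) (η : ℝ), 0 < η → 4 * η * S.card ≤ 1 → (∀ y ∈ S, y ≠ 0) →
  ∃ s : ℝ, ∀ y ∈ S, ∀ k : ℤ, η ≤ |s * y - k|

/-- **Bog.**  Bogolyubov's lemma in `ℤ/N`.

Proof.  `χ = ZMod.stdAddChar`, `S(r) = ∑_{a ∈ E} χ(r a)`, `e = |E|`.  Parseval: `∑_r |S(r)|² = N e`
(orthogonality: `∑_r χ(r u) = N` if `u = 0`, else `0`, `AddChar.sum_mulShift` or `AddChar.sum_eq_ite`).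
`R = {r : e³ ≤ 2N |S(r)|²}`; `|R| e³ ≤ 2N · N e`, so `|R| ≤ 2N²/e² ≤ 2/α²` (`e > 0`).  Let `t` satisfy the
hypothesis and suppose that `a + b - c - d ≠ t` for all `a,b,c,d ∈ E`.  Then
`0 = ∑_{a,b,c,d ∈ E} ∑_r χ(r (a+b-c-d-t)) = ∑_r |S(r)|⁴ χ(-rt)`, real part `0 = ∑_r |S(r)|⁴ Re χ(rt)`
(`χ(-x)` is the conjugate of `χ(x)`).  The terms with `r ∈ R` are `≥ 0`, the term `r = 0 ∈ R` is `e⁴`
(`0 ∈ R` since `e ≤ N`); the terms with `r ∉ R` contribute at least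
`-∑_{r ∉ R} |S(r)|⁴ ≥ -(e³/(2N)) ∑_r |S(r)|² = -e⁴/2`.  So `0 ≥ e⁴/2`, contradiction. -/
def S_Bog : Prop := ∀ (N : ℕ) [NeZero N] (E : Finset (ZMod N)) (α : ℝ), 0 < α → α * N ≤ E.card →
  ∃ R : Finset (ZMod N), (R.card : ℝ) ≤ 2 / α ^ 2 ∧
    ∀ t : ZMod N, (∀ r ∈ R, 0 ≤ (ZMod.stdAddChar (r * t) : ℂ).re) →
      ∃ a ∈ E, ∃ b ∈ E, ∃ c ∈ E, ∃ d ∈ E, t = a + b - c - d

/-- **Dir.**  Dirichlet's theorem.

Proof.  For `i < M` let `F i : R → Fin Q` be `r ↦ ⌊Q · fract (r.val · i · g / N)⌋`.  As `Q^|R| < M` there are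
`i₁ < i₂ < M` with `F i₁ = F i₂` (`Finset.exists_ne_map_eq_of_card_lt_of_maps_to`).  `i = i₂ - i₁`:
`r.val · i · g / N` is an integer plus `fract(..i₂..) - fract(..i₁..)`, of absolute value `≤ 1/Q`. -/
def S_Dir : Prop := ∀ (N g M Q : ℕ) [NeZero N] (R : Finset (ZMod N)), 0 < Q → Q ^ R.card < M →
  ∃ i : ℕ, 0 < i ∧ i < M ∧ ∀ r ∈ R, ∃ m : ℤ, |(r.val : ℝ) * ((i * g : ℕ) : ℝ) / N - m| ≤ 1 / Q

/-- **Pos.**  Characters near `1`.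

Proof.  `r * (T : ZMod N) = ((r.val * T : ℤ) : ZMod N)`, so `ZMod.stdAddChar (r * T) = exp (2πi r.val T / N)`
(`ZMod.stdAddChar_coe`, `ZMod.toCircle_intCast`), with real part `cos (2π r.val T / N) = cos (2π ε)`,
`ε = r.val T / N - m`, `|ε| ≤ 1/4`, and `cos ≥ 0` on `[-π/2, π/2]`. -/
def S_Pos : Prop := ∀ (N : ℕ) [NeZero N] (r : ZMod N) (T m : ℤ),
  |(r.val : ℝ) * (T : ℝ) / N - m| ≤ 1 / 4 → 0 ≤ (ZMod.stdAddChar (r * (T : ZMod N)) : ℂ).re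

/-- **BohrAP** (from `Bog`, `Dir`, `Pos`).  A dense set `E`: `2E - 2E` contains a long progression.

Proof.  `R` from `Bog`, `|R| ≤ 2/α² ≤ ρ`, so `(4L)^|R| ≤ (4L)^ρ < M` (`4L ≥ 1`).  `Dir` with `Q = 4L` gives `i`.
For `|j| ≤ L` and `r ∈ R`: `|r.val · (j i g)/N - j m| ≤ |j|/(4L) ≤ 1/4`, so `Pos` (with `T = j i g` and the
integer `j m`) and then `Bog` with `t = ((j i g : ℤ) : ZMod N)`. -/
def S_BohrAP : Prop := ∀ (N : ℕ) [NeZero N] (E : Finset (ZMod N)) (α : ℝ) (g M L ρ : ℕ), 0 < α →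
  α * N ≤ E.card → 2 / α ^ 2 ≤ ρ → 1 ≤ L → (4 * L) ^ ρ < M →
  ∃ i : ℕ, 0 < i ∧ i < M ∧ ∀ j : ℤ, |j| ≤ L →
    ∃ a ∈ E, ∃ b ∈ E, ∃ c ∈ E, ∃ d ∈ E, ((j * (i * g : ℕ) : ℤ) : ZMod N) = a + b - c - d

/-- **Thick** (no other statement used).  The thickened image of `A` in `ℤ/N`.

Here `N η ≥ 1000`, `w = ⌊η N / 24⌋`, and
`E = {(round(N x) + i mod N) : x ∈ A, |i| ≤ w}`.

Proof.  (1) The map `(x, i) ↦ (round(N x) + i : ZMod N)` is injective on `A × [-w, w]`: if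
`round(Nx) + i ≡ round(Nx') + i'` then for some integer `k`: `|N(x - x') - N k| ≤ 2w + 1`, so
`|(x - x') - k| ≤ (2w+1)/N < η` (as `2w + 1 ≤ ηN/12 + 1 < ηN`), and `x - x' ∈ A - A`; by the separation
hypothesis `x = x'`; then `N | i - i'`, `|i - i'| ≤ 2w < N` (`η ≤ 1/4`), `i = i'`.  So
`|E| = |A| (2w+1) ≥ |A| (ηN/12 - 1) ≥ |A| ηN/13`.
(2) If `T` (an integer) is `a + b - c - d` mod `N` with `a = round(N x₁) + i₁` etc. then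
`y = x₁ + x₂ - x₃ - x₄` works: `T - N y - N k` is the sum of four rounding errors (`≤ 1/2` each) and of
`i₁ + i₂ - i₃ - i₄` (`≤ 4w`), so it is at most `4w + 2 ≤ ηN/6 + 2` in absolute value. -/
def S_Thick : Prop := ∀ (A : Finset ℝ) (η : ℝ) (N : ℕ) [NeZero N], 0 < η → η ≤ 1 / 4 →
  1000 ≤ η * N → (∀ x ∈ A, ∀ x' ∈ A, x ≠ x' → ∀ k : ℤ, η ≤ |x - x' - k|) →
  ∃ E : Finset (ZMod N), (A.card : ℝ) * η * N / 13 ≤ E.card ∧
    ∀ T : ℤ, (∃ a ∈ E, ∃ b ∈ E, ∃ c ∈ E, ∃ d ∈ E, (T : ZMod N) = a + b - c - d) →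
      ∃ x₁ ∈ A, ∃ x₂ ∈ A, ∃ x₃ ∈ A, ∃ x₄ ∈ A, ∃ k : ℤ,
        |(T : ℝ) - N * (x₁ + x₂ - x₃ - x₄) - N * k| ≤ η * N / 6 + 2

/-- **Core0** (from `BohrAP`, `Thick`).  The progression for a set which is separated modulo `1`.

Write `B = 6A - 6A`.  In the statement `6 • A - 6 • A` is the pointwise sumset (`open scoped Pointwise`,
`6 • A = A + A + A + A + A + A`, `Finset.mem_nsmul`...; if more convenient use `nsmul` lemmas such as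
`succ_nsmul`).

Proof.  `n = |A| ≥ 1`.  Choose a natural number `N ≥ 1000/η`.  `0 ∈ A - A`, so `A - A`, `2A - 2A`, `4A - 4A` are
contained in `B`, and `x - x' ∈ B` (`x, x' ∈ A`), hence the hypothesis of `Thick`.  Let `E` be the set of
`Thick`, `α = β/13`: `α N ≤ nηN/13 ≤ |E|`.  `g = ⌈ηN/2⌉`, `M = ⌊N/g⌋` (natural number division), so `M g ≤ N` and
`M > N/g - 1 ≥ 1.99/η - 1 ≥ 1/η ≥ (4L)^ρ` (`g < ηN/2 + 1 ≤ 0.501 ηN`; the hypothesis is `(4L)^ρ η ≤ 1`).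
`BohrAP` gives `0 < i < M`.  For `|j| ≤ L` let `y_j ∈ 2A - 2A` and `k_j` be from `Thick` for `T = j i g`:
`|j i g - N y_j - N k_j| ≤ ηN/6 + 2 =: τ`, `3τ < ηN`.
(a) `y_0 = 0`: `|y_0 + k_0| ≤ τ/N < η`, `y_0 ∈ B`.
(b) `y_{j+1} = y_j + y_1` for `-L ≤ j < L`: `z = y_{j+1} - y_j - y_1 ∈ 6A - 6A` and
`|N z + N (k_{j+1} - k_j - k_1)| ≤ 3τ < ηN`, so `z = 0` by the separation.  Hence `y_j = j y_1` for `|j| ≤ L`
(induction upwards and downwards from `0`).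
(c) `y_1 ≠ 0`: otherwise `|i g - N k_1| ≤ τ < ηN/2 ≤ g`, but `g ≤ i g ≤ (M-1) g ≤ N - g`, contradiction for
every integer `k_1`.
So `x = y_1` works. -/
def S_Core0 : Prop := ∀ (A : Finset ℝ) (η β : ℝ) (L ρ : ℕ), A.Nonempty → 0 < η → η ≤ 1 / 4 → 0 < β →
  β ≤ A.card * η → (∀ y ∈ 6 • A - 6 • A, y ≠ 0 → ∀ k : ℤ, η ≤ |y - k|) →
  2 / (β / 13) ^ 2 ≤ ρ → 1 ≤ L → ((4 * L : ℕ) : ℝ) ^ ρ * η ≤ 1 →
  ∃ x : ℝ, x ≠ 0 ∧ ∀ j : ℤ, |j| ≤ L →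
    ∃ a ∈ A, ∃ b ∈ A, ∃ c ∈ A, ∃ d ∈ A, (j : ℝ) * x = a + b - c - d

/-- **AP** (from `Fun`, `Circ`, `Core0`).  Small doubling gives a long arithmetic progression in `2V - 2V`.

Proof.  `n = |V| ≥ 1`, `K ≥ 1` (as `|V - V| ≥ |V|`).  Plünnecke-Ruzsa
(`Finset.pluennecke_ruzsa_inequality_nsmul_sub_nsmul_sub` with `A = B = V`): `|6V - 6V| ≤ K^12 n`.  Let `f` be from
`Fun` for `S = 6V - 6V`, so `f` is injective on `V` (`V - V ⊆ S`).  Let `η = 1/(4 K^12 n) ≤ 1/4`.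
`Circ` for the set of nonzero elements of `f(S)` gives `s` with `|s f(y) - k| ≥ η` for all `y ∈ S` with
`f(y) ≠ 0`, i.e. `y ≠ 0`, and all integers `k`.  If `n = 1` the hypothesis `(4L)^ρ ≤ n` fails (`L ≥ 1`, `ρ ≥ 1`),
so `n ≥ 2`, `S` has a nonzero element and `s ≠ 0` (take `k = 0`).
`A = s f(V)` has `n` elements, `6A - 6A = s f(6V - 6V)`.  `Core0` with `β = 1/(4K^12) = nη`,
`2/(β/13)² = 2·169·16·K^24 = 5408 K^24 ≤ ρ`, `(4L)^ρ η ≤ n η ≤ 1`: we get `x ≠ 0` and for `|j| ≤ L` a vector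
`v_j ∈ 2V - 2V` with `s f(v_j) = j x`.  `v_{j+1} - v_j - v_1 ∈ 6V - 6V` has `f = 0`, so it is `0`; `v_0 = 0` in
the same way.  So `v_j = j v_1` for `|j| ≤ L` (induction), and `v_1 ≠ 0` as `x ≠ 0`. -/
def S_AP : Prop := ∀ (V : Finset (ℝ × ℝ × ℝ)) (K : ℝ) (L ρ : ℕ), V.Nonempty →
  ((V - V).card : ℝ) ≤ K * V.card → 5408 * K ^ 24 ≤ ρ → 1 ≤ L → (4 * L) ^ ρ ≤ V.card →
  ∃ v : ℝ × ℝ × ℝ, v ≠ 0 ∧ ∀ j : ℤ, |j| ≤ L →
    ∃ a ∈ V, ∃ b ∈ V, ∃ c ∈ V, ∃ d ∈ V, (j : ℝ) • v = a + b - c - d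

/-- **Line.**  A progression in `2V - 2V` gives many points on a line.

Proof.  `Q = {j v : |j| ≤ L}` has `2L+1` elements (`v ≠ 0`) and `V + Q ⊆ 3V - 2V`, so
`|V + Q| ≤ |3V - 2V| ≤ K^5 |V|` (Plünnecke-Ruzsa, `Finset.pluennecke_ruzsa_inequality_nsmul_sub_nsmul_sub`).  Let
`m` be the maximum over `p ∈ V` of `#{q ∈ V : q - p ∈ ℝ v}`.  The fibre of the map `V × Q → V + Q`,
`(u, z) ↦ u + z` over a point has at most `m` elements: all its `u` differ by multiples of `v` and `u`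
determines `z`.  So `(2L+1)|V| = |V × Q| ≤ m |V + Q| ≤ m K^5 |V|`. -/
def S_Line : Prop := ∀ (V : Finset (ℝ × ℝ × ℝ)) (K : ℝ) (L : ℕ) (v : ℝ × ℝ × ℝ), V.Nonempty →
  ((V - V).card : ℝ) ≤ K * V.card → v ≠ 0 →
  (∀ j : ℤ, |j| ≤ L → ∃ a ∈ V, ∃ b ∈ V, ∃ c ∈ V, ∃ d ∈ V, (j : ℝ) • v = a + b - c - d) →
  ∃ p ∈ V, ∃ T ⊆ V, (∀ q ∈ T, ∃ s : ℝ, q = p + s • v) ∧ (2 * L + 1 : ℝ) ≤ K ^ 5 * T.card

/-! ## Part C: geometry and numbers -/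

/-- **Pairs.**  From lines to pairs.

Proof.  Put `P' = P.image (lift a b d)`.  `lift a b d` is injective on `P` (the third coordinate is
`φ(p)⁻¹ ≠ 0`, then the first two give `p`), and `Ratio a b d p q r t` says exactly
`lift r = (1-t) • lift p + t • lift q`.  For every `L` in `ratioLines P Λ a b d` choose `p, q, r, t` as in the
definition.  `t ≠ 0` (else `lift r = lift p`, `r = p`), `t ≠ 1` (else `r = q`).  `L` is determined by `(p,q)`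
(a line through two different points: finrank 1 and `p, q ∈ L`, so `L = line[ℝ, p, q]`), so
`#lines ≤ #{(p,q) ∈ P² : p ≠ q, lift p, lift q satisfy (1-t) lift p + t lift q ∈ P' for some
t ∈ Λ, t ≠ 0, 1} ≤ ∑_{t ∈ Λ, t ≠ 0, 1} #{z ∈ P' × P' : (1-t) z.1 + t z.2 ∈ P'}`.  Pigeonhole: for some
`t ∈ Λ`, `t ≠ 0, 1`, the summand is `≥ α n²/|Λ|` (if no `t ≠ 0,1` exists in `Λ` the left side is `0 < α n²`,
a contradiction). -/
def S_Pairs : Prop := ∀ (P : Finset (ℝ × ℝ)) (Λ : Finset ℝ) (a b d α : ℝ), P.Nonempty → 0 < α →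
  (∀ p ∈ P, aff a b d p ≠ 0) → α * (P.card : ℝ) ^ 2 ≤ ((ratioLines P Λ a b d).ncard : ℝ) →
  ∃ P' : Finset (ℝ × ℝ × ℝ), P' = P.image (lift a b d) ∧ P'.card = P.card ∧
    ∃ t ∈ Λ, t ≠ 0 ∧ t ≠ 1 ∧ α / Λ.card * (P'.card : ℝ) ^ 2 ≤
      (((P' ×ˢ P').filter fun z => (1 - t) • z.1 + t • z.2 ∈ P').card : ℝ)

/-- **Back.**  Points whose lifts are on a line are on a line.

Proof.  For `q = lift y ∈ T` (`y ∈ P`): `(y.1, y.2, 1) = φ(y) • q` lies in the span `W` of `p` and `v`,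
`dim W ≤ 2`.  Take `(A, B, C) ≠ 0` with `A z₁ + B z₂ + C z₃ = 0` on `W`; then `A y.1 + B y.2 + C = 0` for
these `y`.  If `T` is empty take any line.  Otherwise `(A,B) ≠ (0,0)` (else `C = 0`), and
`L = {A x + B y + C = 0}` is a line.  (Or: if the `y` are at least two, take the line through two of them and
check the vanishing of the `3 × 3` determinant of three vectors in `W`.)  The map `T → P ∩ L`, `q ↦ y` is
injective. -/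
def S_Back : Prop := ∀ (P : Finset (ℝ × ℝ)) (a b d : ℝ) (p v : ℝ × ℝ × ℝ)
  (T : Finset (ℝ × ℝ × ℝ)), (∀ y ∈ P, aff a b d y ≠ 0) → T ⊆ P.image (lift a b d) →
  (∀ q ∈ T, ∃ s : ℝ, q = p + s • v) →
  ∃ L : AffineSubspace ℝ (ℝ × ℝ), Module.finrank ℝ L.direction = 1 ∧
    T.card ≤ ((P : Set (ℝ × ℝ)) ∩ (L : Set (ℝ × ℝ))).ncard

/-- **Two.**  Two points are on a line.

Proof.  `P` has two different points `x, y`; `L = line[ℝ, x, y]` (direction spanned by `y - x ≠ 0`). -/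
def S_Two : Prop := ∀ P : Finset (ℝ × ℝ), 2 ≤ P.card →
  ∃ L : AffineSubspace ℝ (ℝ × ℝ), Module.finrank ℝ L.direction = 1 ∧
    2 ≤ ((P : Set (ℝ × ℝ)) ∩ (L : Set (ℝ × ℝ))).ncard

/-- **Num.**  The numerical inequality.

Proof.  `u = 2/γ ≥ 2`, so `γ² n/4 = n/u²`, `K = 2^23/γ^20 = 2^3 u^20 ≤ u^23`,
`5408 K^24 + 1 ≤ 5409 u^552 ≤ u^13 u^552 = u^565`, `4K^5 ≤ u^2 u^115 = u^117`.
Let `ρ = ⌈5408 K^24⌉ ≤ u^565` (natural number, `≥ 1`) and `m = n/u²`.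
Claim `m ≤ (4 K^5 X)^ρ`.  If `m < 4^ρ` clear (`K ≥ 1`, `X ≥ 1`).  Otherwise let `L = ⌊m^(1/ρ)/4⌋ ≥ 1`, so
`(4L)^ρ ≤ m`, and by hypothesis `2L + 1 ≤ K^5 X`; `2L + 1 ≥ m^(1/ρ)/2 - 1 ≥ m^(1/ρ)/4`, so
`m^(1/ρ) ≤ 4 K^5 X`.
Hence `n ≤ u² (u^117 X)^ρ = u^(2 + 117ρ) X^ρ`.  As `u ≤ 2^u ≤ X^u` (real power), `n ≤ X^(u(2+117ρ)+ρ)` and
`u(2 + 117ρ) + ρ ≤ 2u + 118uρ ≤ 120 u^566 ≤ u^573 ≤ u^600`.  So `n ≤ X^(u^600)`, i.e.
`n^((γ/2)^600) ≤ X` (`(γ/2)^600 = u^(-600)`). -/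
def S_Num : Prop := ∀ (n X γ : ℝ), 1 ≤ n → 2 ≤ X → 0 < γ → γ ≤ 1 →
  (∀ L ρ : ℕ, 1 ≤ L → 5408 * (2 ^ 23 / γ ^ 20) ^ 24 ≤ (ρ : ℝ) →
    ((4 * L : ℕ) : ℝ) ^ ρ ≤ γ ^ 2 / 4 * n → (2 * L + 1 : ℝ) ≤ (2 ^ 23 / γ ^ 20) ^ 5 * X) →
  n ^ ((γ / 2) ^ 600) ≤ X

/-- **Main** (from all the others). -/
def S_Main : Prop := ∀ (P : Finset (ℝ × ℝ)) (Λ : Finset ℝ) (a b d α : ℝ), 2 ≤ P.card → Λ.Nonempty →
  0 < α → α ≤ 1 → (∀ p ∈ P, aff a b d p ≠ 0) →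
  α * (P.card : ℝ) ^ 2 ≤ ((ratioLines P Λ a b d).ncard : ℝ) →
  ∃ L : AffineSubspace ℝ (ℝ × ℝ), Module.finrank ℝ L.direction = 1 ∧
    (P.card : ℝ) ^ ((α / (2 * Λ.card)) ^ 600) ≤
      (((P : Set (ℝ × ℝ)) ∩ (L : Set (ℝ × ℝ))).ncard : ℝ)

end Pool.Agent.RR95
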