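import Pool.Agent.Lib.MP_95b053_co.Spec

/-!
# MP_95b053_co: two points are on a line (`Two`)
-/

namespace Pool.Agent.RR95

theorem rTwo : S_Two := by
  intro P hP
  classical
  obtain ⟨x, hx, y, hy, hxy⟩ := Finset.one_lt_card.1 (by omega : 1 < P.card)
  refine ⟨AffineSubspace.mk' x (Submodule.span ℝ {y - x}), ?_, ?_⟩
  · rw [AffineSubspace.direction_mk']
    exact finrank_span_singleton (sub_ne_zero.2 (Ne.symm hxy))
  · have h1 : ({x, y} : Finset (ℝ × ℝ)).card = 2 := Finset.card_pair hxy
    rw [← h1, ← Set.ncard_coe_finset]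
    apply Set.ncard_le_ncard
    · intro z hz
      simp only [Finset.coe_insert, Finset.coe_singleton, Set.mem_insert_iff,
        Set.mem_singleton_iff] at hz
      rcases hz with rfl | rfl
      · exact ⟨hx, AffineSubspace.self_mem_mk' _ _⟩
      · refine ⟨hy, ?_⟩
        rw [SetLike.mem_coe, AffineSubspace.mem_mk', vsub_eq_sub]
        exact Submodule.mem_span_singleton_self _
    · exact (Finset.finite_toSet P).subset Set.inter_subset_left

end Pool.Agent.RR95
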