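import Pool.Agent.Lib.MP_95b053_co.Spec
import Pool.Agent.Lib.MP_8dbdcc_co.Bsg

/-!
# MP_95b053_co, module `Small`: Balog-Szemerédi-Gowers
-/

set_option autoImplicit false

namespace Pool.Agent.RR95

open Finset
open scoped Pointwise

private theorem card_aux (v p δ α : ℝ) (hα : 0 < α) (hp : 0 < p) (hδ : 0 ≤ δ)
    (h1 : v * ((α ^ 2 / 2) ^ 5 * p ^ 3) ≤ 4096 * δ ^ 4) (h2 : δ * α ^ 2 ≤ 2 * p) :
    v * α ^ 18 ≤ 2 ^ 21 * p := by
  have h3 : (δ * α ^ 2) ^ 4 ≤ (2 * p) ^ 4 := pow_le_pow_left₀ (by positivity) h2 4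
  have h4 : v * ((α ^ 2 / 2) ^ 5 * p ^ 3) * α ^ 8 ≤ 4096 * δ ^ 4 * α ^ 8 :=
    mul_le_mul_of_nonneg_right h1 (by positivity)
  have h5 : (v * α ^ 18) * p ^ 3 ≤ (2 ^ 21 * p) * p ^ 3 := by
    nlinarith [h3, h4]
  exact le_of_mul_le_mul_right h5 (by positivity)

/-- **Small.** -/
theorem rSmall (h1 : S_Pop) : S_Small := by
  classical
  intro P t α hP ht0 ht1 hα hcard
  obtain ⟨D, hD1, hD2, hD3⟩ := h1 P t α hP ht0 ht1 hα hcard
  have hp : (0 : ℝ) < P.card := by exact_mod_cast hP.card_pos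
  obtain ⟨ι, hι⟩ : ∃ ι : (ℝ × ℝ × ℝ) ≃ Multiplicative (ℝ × ℝ × ℝ), ι = Multiplicative.ofAdd :=
    ⟨_, rfl⟩
  have hinv : ∀ g : ℝ × ℝ × ℝ, (ι g)⁻¹ = ι (-g) := by
    intro g
    rw [hι]
    rfl
  have hmul : ∀ g h : ℝ × ℝ × ℝ, ι g * ι h = ι (g + h) := by
    intro g h
    rw [hι]
    rfl
  have hD' : ∀ g ∈ D.map ι.toEmbedding, g⁻¹ ∈ D.map ι.toEmbedding := by
    intro g hg
    obtain ⟨x, hx, rfl⟩ := Finset.mem_map.1 hg
    rw [Equiv.coe_toEmbedding, hinv]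
    exact Finset.mem_map.2 ⟨-x, hD1 x hx, rfl⟩
  have hE : (((P ×ˢ P).filter fun z => -z.1 + z.2 ∈ D).card : ℝ) ≤
      ((((P.map ι.toEmbedding) ×ˢ (P.map ι.toEmbedding)).filter
        fun q => q.1⁻¹ * q.2 ∈ D.map ι.toEmbedding).card : ℝ) := by
    rw [Nat.cast_le]
    apply Finset.card_le_card_of_injOn (fun z : (ℝ × ℝ × ℝ) × (ℝ × ℝ × ℝ) => (ι z.1, ι z.2))
    · intro z hz
      have hz' := Finset.mem_filter.1 (Finset.mem_coe.1 hz)
      have hz1 := Finset.mem_product.1 hz'.1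
      rw [Finset.mem_coe, Finset.mem_filter, Finset.mem_product]
      refine ⟨⟨Finset.mem_map.2 ⟨z.1, hz1.1, rfl⟩, Finset.mem_map.2 ⟨z.2, hz1.2, rfl⟩⟩, ?_⟩
      have h5 : (ι z.1)⁻¹ * ι z.2 = ι (-z.1 + z.2) := by rw [hinv, hmul]
      show (ι z.1)⁻¹ * ι z.2 ∈ D.map ι.toEmbedding
      rw [h5]
      exact Finset.mem_map.2 ⟨-z.1 + z.2, hz'.2, rfl⟩
    · intro z _ w _ h
      have h5 : (ι z.1, ι z.2) = (ι w.1, ι w.2) := h
      rw [Prod.mk.injEq] at h5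
      exact Prod.ext (ι.injective h5.1) (ι.injective h5.2)
  have hE2 : α ^ 2 / 2 * (((P.map ι.toEmbedding).card : ℕ) : ℝ) ^ 2 ≤
      ((((P.map ι.toEmbedding) ×ˢ (P.map ι.toEmbedding)).filter
        fun q => q.1⁻¹ * q.2 ∈ D.map ι.toEmbedding).card : ℝ) := by
    rw [Finset.card_map]
    exact hD3.trans hE
  obtain ⟨V', hV1, hV2, hV3⟩ := Pool.Agent.Lib.MP_8dbdcc_co.bsg (P.map ι.toEmbedding)
    (D.map ι.toEmbedding) hD' (α ^ 2 / 2) (by positivity) (hP.map) hE2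
  rw [Finset.card_map] at hV2 hV3
  rw [Finset.card_map] at hV3
  refine ⟨V'.map ι.symm.toEmbedding, ?_, ?_, ?_⟩
  · intro x hx
    obtain ⟨y, hy, rfl⟩ := Finset.mem_map.1 hx
    obtain ⟨z, hz, rfl⟩ := Finset.mem_map.1 (hV1 hy)
    simpa using hz
  · rw [Finset.card_map]
    have h5 : α ^ 2 / 4 * (P.card : ℝ) = α ^ 2 / 2 / 2 * (P.card : ℝ) := by ring
    rw [h5]
    exact hV2
  · have h6 : ((V'.map ι.symm.toEmbedding - V'.map ι.symm.toEmbedding).card : ℝ) ≤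
        ((V'⁻¹ * V').card : ℝ) := by
      rw [Nat.cast_le]
      apply Finset.card_le_card_of_injOn (fun z => ι z)
      · intro z hz
        obtain ⟨a, ha, b, hb, rfl⟩ := Finset.mem_sub.1 (Finset.mem_coe.1 hz)
        obtain ⟨a', ha', rfl⟩ := Finset.mem_map.1 ha
        obtain ⟨b', hb', rfl⟩ := Finset.mem_map.1 hb
        rw [Finset.mem_coe]
        have h7 : ι (ι.symm.toEmbedding a' - ι.symm.toEmbedding b') = b'⁻¹ * a' := by
          have h8 : b' = ι (ι.symm b') := (ι.apply_symm_apply b').symm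
          have h9 : a' = ι (ι.symm a') := (ι.apply_symm_apply a').symm
          rw [Equiv.coe_toEmbedding]
          conv_rhs => rw [h8, h9, hinv, hmul]
          rw [sub_eq_neg_add]
        show ι (ι.symm.toEmbedding a' - ι.symm.toEmbedding b') ∈ V'⁻¹ * V'
        rw [h7]
        exact Finset.mul_mem_mul (Finset.inv_mem_inv hb') ha'
      · intro z _ w _ h
        exact ι.injective h
    rw [Finset.card_map]
    have h7 : ((V'⁻¹ * V').card : ℝ) * α ^ 18 ≤ 2 ^ 21 * P.card :=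
      card_aux _ _ (D.card : ℝ) α hα hp (Nat.cast_nonneg _) hV3 hD2
    have h8 : α ^ 2 * (P.card : ℝ) ≤ 4 * V'.card := by nlinarith [hV2]
    calc ((V'.map ι.symm.toEmbedding - V'.map ι.symm.toEmbedding).card : ℝ) * α ^ 20
        ≤ ((V'⁻¹ * V').card : ℝ) * α ^ 20 := mul_le_mul_of_nonneg_right h6 (by positivity)
      _ = ((V'⁻¹ * V').card : ℝ) * α ^ 18 * α ^ 2 := by ring
      _ ≤ 2 ^ 21 * P.card * α ^ 2 := mul_le_mul_of_nonneg_right h7 (by positivity)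
      _ = 2 ^ 21 * (α ^ 2 * P.card) := by ring
      _ ≤ 2 ^ 21 * (4 * V'.card) := mul_le_mul_of_nonneg_left h8 (by positivity)
      _ = 2 ^ 23 * V'.card := by ring

end Pool.Agent.RR95
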